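import Pool.Agent.Wil.Aut
import Pool.Agent.Wnx.Idx

set_option autoImplicit false

/-! The multiplicative step for a module which extends to the automorphism group. -/

namespace Pool.Agent.Wpp

open MonoidAlgebra Pool.Agent.Wil Pool.Agent.Wnx Equiv

section data
variable {T : Type} [Group T] [IsSimpleGroup T]

/-- The defining property of the pair `(π, s)` attached to an automorphism of `T ^ r`. -/
def PS {T : Type} [Group T] {r : ℕ} (ψ : MulAut (Fin r → T)) (π : Perm (Fin r))
    (s : Fin r → MulAut T) : Prop :=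
  ∀ (j : Fin r) (a : T), ψ (Pi.mulSingle j a) = Pi.mulSingle (π j) (s j a)

theorem PS.uniq {r : ℕ} {ψ : MulAut (Fin r → T)} {π π' : Perm (Fin r)}
    {s s' : Fin r → MulAut T} (h : PS ψ π s) (h' : PS ψ π' s') : π = π' ∧ s = s' := by
  obtain ⟨a0, ha0⟩ := exists_ne (1 : T)
  have hπ : ∀ j, π j = π' j := by
    intro j
    by_contra hne
    have h1 := (h j a0).symm.trans (h' j a0)
    have h2 := congrFun h1 (π j)
    rw [Pi.mulSingle_eq_same, Pi.mulSingle_eq_of_ne hne] at h2
    exact ha0 ((map_eq_one_iff (s j) (s j).injective).1 h2)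
  refine ⟨Equiv.ext hπ, funext fun j => MulEquiv.ext fun a => ?_⟩
  have h1 := (h j a).symm.trans (h' j a)
  rw [hπ j] at h1
  have h2 := congrFun h1 (π' j)
  rwa [Pi.mulSingle_eq_same, Pi.mulSingle_eq_same] at h2

omit [IsSimpleGroup T] in
theorem PS.mul {r : ℕ} {ψ ψ' : MulAut (Fin r → T)} {π π' : Perm (Fin r)}
    {s s' : Fin r → MulAut T} (h : PS ψ π s) (h' : PS ψ' π' s') :
    PS (ψ * ψ') (π * π') (fun j => s (π' j) * s' j) := by
  intro j a
  rw [MulAut.mul_apply, h' j a, h (π' j) (s' j a), Perm.mul_apply, MulAut.mul_apply]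

theorem wr_data (hT : ∃ a b : T, a * b ≠ b * a) {G : Type} [Group G] (N : Subgroup G) [N.Normal]
    {r : ℕ} (e : N ≃* (Fin r → T)) :
    ∃ (π : G →* Perm (Fin r)) (σ : G → Fin r → MulAut T),
      (∀ g h j, σ (g * h) j = σ g (π h j) * σ h j) ∧
      ∀ x : N, π (x : G) = 1 ∧ ∀ j, σ (x : G) j = MulAut.conj (e x j) := by
  classical
  let Ψ : G →* MulAut (Fin r → T) :=
    (MulAut.congr e).toMonoidHom.comp (MulAut.conjNormal (G := G) (H := N))
  have hΨ : ∀ (g : G) (y : Fin r → T),
      Ψ g y = e (MulAut.conjNormal (G := G) (H := N) g (e.symm y)) := fun g y => rfl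
  choose π σ hP using fun g => aut_pi hT (Ψ g)
  have hP' : ∀ g, PS (Ψ g) (π g) (σ g) := hP
  have hmul : ∀ g h, π (g * h) = π g * π h ∧ σ (g * h) = fun j => σ g (π h j) * σ h j := by
    intro g h
    have h1 := (hP' g).mul (hP' h)
    rw [← map_mul] at h1
    exact (hP' (g * h)).uniq h1
  have hN : ∀ (x : N), π (x : G) = 1 ∧ σ (x : G) = fun j => MulAut.conj (e x j) := by
    intro x
    refine (hP' (x : G)).uniq ?_
    intro j a
    rw [hΨ]
    have h1 : MulAut.conjNormal (G := G) (H := N) (x : G) (e.symm (Pi.mulSingle j a)) =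
        x * e.symm (Pi.mulSingle j a) * x⁻¹ := by
      apply Subtype.ext
      rw [MulAut.conjNormal_apply]
      rfl
    rw [h1, map_mul, map_mul, map_inv, MulEquiv.apply_symm_apply, Perm.one_apply,
      MulAut.conj_apply]
    funext i
    by_cases h : i = j
    · subst h
      simp
    · simp [Pi.mulSingle_eq_of_ne h]
  have hone : π 1 = 1 := by
    have := (hmul 1 1).1
    rw [one_mul] at this
    exact (mul_eq_left.1 this.symm)
  refine ⟨⟨⟨π, hone⟩, fun g h => (hmul g h).1⟩, σ, ?_, ?_⟩
  · intro g h j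
    exact congrFun (hmul g h).2 j
  · intro x
    exact ⟨(hN x).1, fun j => congrFun (hN x).2 j⟩

end data

section rep
variable {k ι T : Type} [Field k] [Fintype ι] [DecidableEq ι] [Group T]

/-- the tensor power of a representation of the automorphism group -/
theorem wr_rep {G : Type} [Group G] {r : ℕ} (π : G →* Perm (Fin r)) (σ : G → Fin r → MulAut T)
    (hσ : ∀ g h j, σ (g * h) j = σ g (π h j) * σ h j) (W : MulAut T →* Matrix ι ι k) :
    ∃ ρ : G →* Matrix (Fin r → ι) (Fin r → ι) k,
      ∀ g f h, ρ g f h = ∏ j, W (σ g j) (f (π g j)) (h j) := by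
  classical
  have hσ1 : ∀ j, σ 1 j = 1 := by
    intro j
    have h := hσ 1 1 j
    rw [one_mul, map_one, Perm.one_apply] at h
    exact (mul_eq_left.1 h.symm)
  refine ⟨⟨⟨fun g => Matrix.of fun f h => ∏ j, W (σ g j) (f (π g j)) (h j), ?_⟩, ?_⟩,
    fun g f h => rfl⟩
  · ext1 f h
    rw [Matrix.of_apply, Matrix.one_apply]
    have : ∀ j, W (σ 1 j) (f ((π 1) j)) (h j) = if f j = h j then 1 else 0 := by
      intro j
      rw [hσ1, map_one, map_one, Perm.one_apply, Matrix.one_apply]
    simp only [this]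
    rw [Finset.prod_ite_zero]
    simp [funext_iff]
  · intro g g'
    ext1 f h
    change ∏ j, W (σ (g * g') j) (f (π (g * g') j)) (h j) = _
    rw [Matrix.mul_apply]
    simp only [Matrix.of_apply]
    have h1 : ∀ j, W (σ (g * g') j) (f (π (g * g') j)) (h j) =
        ∑ u, W (σ g (π g' j)) (f (π g (π g' j))) u * W (σ g' j) u (h j) := by
      intro j
      rw [hσ, map_mul, map_mul, Matrix.mul_apply, Perm.mul_apply]
    simp only [h1]
    rw [Finset.prod_univ_sum, Fintype.piFinset_univ]
    refine (Fintype.sum_equiv ((π g').symm.arrowCongr (Equiv.refl ι)) _ _ fun w => ?_).symm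
    have h2 : ∀ j, ((π g').symm.arrowCongr (Equiv.refl ι)) w j = w (π g' j) := fun j => rfl
    simp only [h2]
    rw [Finset.prod_mul_distrib]
    congr 1
    exact (Equiv.prod_comp (π g') (fun j => W (σ g j) (f (π g j)) (w j))).symm

/-- the tensor powers span -/
theorem ten_span' {m : ℕ} [Finite T] (V : T →* Matrix ι ι k)
    (hV : Submodule.span k (Set.range V) = ⊤) :
    Submodule.span k (Set.range (fun t : Fin m → T =>
      (Matrix.of fun f h => ∏ i, V (t i) (f i) (h i) : Matrix (Fin m → ι) (Fin m → ι) k))) = ⊤ := by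
  classical
  have : Fintype T := Fintype.ofFinite T
  have h1 : ∀ a b : ι, ∃ c : T → k, ∑ s, c s • V s = Matrix.single a b 1 := by
    intro a b
    have : Matrix.single a b (1 : k) ∈ Submodule.span k (Set.range V) := by rw [hV]; trivial
    exact (Submodule.mem_span_range_iff_exists_fun k).1 this
  choose c hc using h1
  rw [eq_top_iff]
  intro M _
  rw [Matrix.matrix_eq_sum_single M]
  refine Submodule.sum_mem _ fun f _ => Submodule.sum_mem _ fun h _ => ?_
  have h2 : Matrix.single f h (M f h) = M f h • ∑ t : Fin m → T, (∏ i, c (f i) (h i) (t i)) •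
      (Matrix.of fun f h => ∏ i, V (t i) (f i) (h i) : Matrix (Fin m → ι) (Fin m → ι) k) := by
    ext1 f' h'
    rw [Matrix.smul_apply, Matrix.sum_apply]
    simp only [Matrix.smul_apply, Matrix.of_apply, smul_eq_mul, ← Finset.prod_mul_distrib]
    have h3 := Finset.prod_univ_sum (fun _ : Fin m => (Finset.univ : Finset T))
      (fun i s => c (f i) (h i) s * V s (f' i) (h' i))
    rw [Fintype.piFinset_univ] at h3
    rw [← h3]
    have h4 : ∀ i, ∑ s, c (f i) (h i) s * V s (f' i) (h' i) =
        if f i = f' i ∧ h i = h' i then 1 else 0 := by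
      intro i
      have := congrFun (congrFun (hc (f i) (h i)) (f' i)) (h' i)
      rw [Matrix.sum_apply, Matrix.single_apply] at this
      simpa only [Matrix.smul_apply, smul_eq_mul] using this
    simp only [h4]
    rw [Finset.prod_ite_zero, Matrix.single_apply]
    by_cases h5 : f = f' ∧ h = h'
    · rw [if_pos h5, if_pos]
      · simp
      · intro i _
        exact ⟨congrFun h5.1 i, congrFun h5.2 i⟩
    · rw [if_neg h5, if_neg, mul_zero]
      intro h6
      exact h5 ⟨funext fun i => (h6 i (Finset.mem_univ i)).1,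
        funext fun i => (h6 i (Finset.mem_univ i)).2⟩
  rw [h2]
  exact Submodule.smul_mem _ _ (Submodule.sum_mem _ fun t _ => Submodule.smul_mem _ _
    (Submodule.subset_span ⟨t, rfl⟩))

end rep

/-- the step for a module of `T` which extends to the automorphism group -/
theorem ext_step {k T G : Type} [Field k] [Group T] [IsSimpleGroup T]
    (hT : ∃ a b : T, a * b ≠ b * a) [Group G] [Finite G] {n m : ℕ}
    (W : MulAut T →* Matrix (Fin n) (Fin n) k)
    (hW : Submodule.span k (Set.range fun t : T => W (MulAut.conj t)) = ⊤)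
    (M : Subgroup G) [M.Normal] (e : M ≃* (Fin m → T)) :
    (n ^ 2) ^ m * ssDim k (G ⧸ M) ≤ ssDim k G := by
  classical
  rcases Nat.eq_zero_or_pos m with rfl | hm
  · rw [pow_zero, one_mul]
    exact ssDim_le_of_surjective (QuotientGroup.mk' M) (QuotientGroup.mk'_surjective M)
  have hfin : Finite T := by
    have h1 : Finite (Fin m → T) := Finite.of_equiv M e.toEquiv
    exact Finite.of_surjective (fun t : Fin m → T => t ⟨0, hm⟩) (fun a => ⟨fun _ => a, rfl⟩)
  obtain ⟨π, σ, hσ, hN⟩ := wr_data hT M e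
  obtain ⟨ρ, hρ⟩ := wr_rep π σ hσ W
  let V : T →* Matrix (Fin n) (Fin n) k := W.comp MulAut.conj
  have hsp := ten_span' (m := m) V hW
  have hker : (QuotientGroup.mk' M).ker = M := QuotientGroup.ker_mk' M
  have hq := ssDim_quot (k := k) (QuotientGroup.mk' M) (QuotientGroup.mk'_surjective M) ρ (by
    rw [eq_top_iff, ← hsp]
    refine Submodule.span_mono ?_
    rintro _ ⟨t, rfl⟩
    refine ⟨⟨(e.symm t : M), by rw [hker]; exact (e.symm t).2⟩, ?_⟩
    ext1 f h
    change ρ ((e.symm t : M) : G) f h = ∏ i, V (t i) (f i) (h i)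
    rw [hρ]
    refine Finset.prod_congr rfl fun j _ => ?_
    rw [(hN (e.symm t)).1, (hN (e.symm t)).2 j, MulEquiv.apply_symm_apply, Perm.one_apply]
    rfl)
  rw [Fintype.card_fun, Fintype.card_fin, Fintype.card_fin, ← pow_mul, mul_comm m 2, pow_mul] at hq
  exact hq

end Pool.Agent.Wpp
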