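import Mathlib

set_option autoImplicit false

/-! Surjective homomorphisms onto matrix algebras with the same kernel, with different kernels (Mathlib only). -/

namespace Pool.Agent.Wpp

-- BEGIN inner
/-- PROOF. `Matrix.toLinAlgEquiv'` and `AlgEquiv.eq_linearEquivConjAlgEquiv`. -/
theorem inner {k ι : Type} [Field k] [Fintype ι] [DecidableEq ι]
    (α : Matrix ι ι k ≃ₐ[k] Matrix ι ι k) :
    ∃ P : Matrix ι ι k, IsUnit P.det ∧ ∀ M, α M * P = P * M := by
  obtain ⟨T, hT⟩ := AlgEquiv.eq_linearEquivConjAlgEquiv
    ((Matrix.toLinAlgEquiv' (R := k) (n := ι)).symm.trans (α.trans (Matrix.toLinAlgEquiv' (R := k) (n := ι))))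
  refine ⟨LinearMap.toMatrix' T.toLinearMap, ?_, fun M => ?_⟩
  · refine Matrix.isUnit_det_of_right_inverse (B := LinearMap.toMatrix' T.symm.toLinearMap) ?_
    rw [← LinearMap.toMatrix'_comp]
    have : T.toLinearMap ∘ₗ T.symm.toLinearMap = LinearMap.id := by
      refine LinearMap.ext fun x => ?_
      simp
    rw [this, LinearMap.toMatrix'_id]
  · have h1 := DFunLike.congr_fun hT (Matrix.toLinAlgEquiv' M)
    rw [LinearEquiv.conjAlgEquiv_apply] at h1
    have h2 : Matrix.toLin' (α M) ∘ₗ T.toLinearMap = T.toLinearMap ∘ₗ Matrix.toLin' M := by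
      have h3 : Matrix.toLin' (α M) = T.toLinearMap ∘ₗ Matrix.toLin' M ∘ₗ T.symm.toLinearMap := by
        refine Eq.trans ?_ h1
        simp only [AlgEquiv.trans_apply, AlgEquiv.symm_apply_apply]
        rfl
      rw [h3]
      refine LinearMap.ext fun x => ?_
      simp only [LinearMap.comp_apply, LinearEquiv.coe_coe, LinearEquiv.symm_apply_apply]
    have h4 := congrArg LinearMap.toMatrix' h2
    rw [LinearMap.toMatrix'_comp, LinearMap.toMatrix'_comp, LinearMap.toMatrix'_toLin',
      LinearMap.toMatrix'_toLin'] at h4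
    exact h4
-- END inner

-- BEGIN intertw
/-- PROOF. `R' = β ∘ R` for a linear map `β : Matrix ι ι k → Matrix ι ι k` (kernels), which is an algebra homomorphism, onto, so bijective (dimension). Then `inner`. -/
theorem intertw {k A ι : Type} [Field k] [Ring A] [Algebra k A] [Fintype ι] [DecidableEq ι]
    (R R' : A →ₐ[k] Matrix ι ι k) (hR : Function.Surjective R) (hR' : Function.Surjective R')
    (h : ∀ a, R a = 0 → R' a = 0) :
    ∃ P : Matrix ι ι k, IsUnit P.det ∧ ∀ a, R' a * P = P * R a := by
  have hwd : ∀ a b, R a = R b → R' a = R' b := by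
    intro a b hab
    have h1 : R (a - b) = 0 := by rw [map_sub, hab, sub_self]
    have h2 := h _ h1
    rw [map_sub] at h2
    exact sub_eq_zero.1 h2
  choose g hg using hR
  have hβ : ∀ a, R' (g (R a)) = R' a := fun a => hwd _ _ (hg (R a))
  let β : Matrix ι ι k →ₐ[k] Matrix ι ι k :=
    AlgHom.ofLinearMap
      { toFun := fun M => R' (g M)
        map_add' := fun M N => by
          rw [← map_add R' (g M) (g N)]
          exact hwd _ _ (by rw [hg, map_add, hg, hg])
        map_smul' := fun c M => by
          rw [RingHom.id_apply, ← map_smul R' c (g M)]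
          exact hwd _ _ (by rw [hg, map_smul, hg]) }
      ((hwd _ _ (by rw [hg, map_one])).trans (map_one R'))
      (fun M N => by
        show R' (g (M * N)) = R' (g M) * R' (g N)
        rw [← map_mul R']
        exact hwd _ _ (by rw [hg, map_mul, hg, hg]))
  have hβ' : ∀ M, β M = R' (g M) := fun M => rfl
  have hsurj : Function.Surjective β := by
    intro M
    obtain ⟨a, ha⟩ := hR' M
    exact ⟨R a, by rw [hβ', hβ, ha]⟩
  have hinj : Function.Injective β := by
    have h1 : Function.Surjective β.toLinearMap := hsurj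
    exact LinearMap.injective_iff_surjective.2 h1
  obtain ⟨P, hP, hP'⟩ := inner (AlgEquiv.ofBijective β ⟨hinj, hsurj⟩)
  refine ⟨P, hP, fun a => ?_⟩
  have h1 := hP' (R a)
  have h2 : (AlgEquiv.ofBijective β ⟨hinj, hsurj⟩) (R a) = β (R a) := rfl
  rw [h2, hβ', hβ] at h1
  exact h1
-- END intertw

-- BEGIN separate
/-- PROOF. For `y ≠ x` the set `{R x a : R y a = 0}` is a two-sided ideal of the matrix algebra (`R x` is onto), not `0`, so it contains `1` (if `M i j ≠ 0` then
`1 = ∑ l, single l i ((M i j)⁻¹) * M * single j l 1`): there is `b y` with `R x (b y) = 1`, `R y (b y) = 0`. Multiply all `b y`, `y ≠ x`, and a preimage of `M` under `R x`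
(a product over a list or `Finset.noncommProd`-free: induction on finsets of `y`). -/
theorem separate {k A ι X : Type} [Field k] [Ring A] [Algebra k A] [Fintype ι] [DecidableEq ι]
    [Fintype X] [DecidableEq X] (R : X → A →ₐ[k] Matrix ι ι k)
    (hs : ∀ x, Function.Surjective (R x)) (h : ∀ x y, x ≠ y → ∃ a, R y a = 0 ∧ R x a ≠ 0)
    (x : X) (M : Matrix ι ι k) : ∃ a, R x a = M ∧ ∀ y, y ≠ x → R y a = 0 := by
  have h1 : ∀ y, y ≠ x → ∃ b, R x b = 1 ∧ R y b = 0 := by
    intro y hy
    obtain ⟨a, ha0, ha1⟩ := h x y (Ne.symm hy)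
    have hij : ∃ i j, R x a i j ≠ 0 := by
      by_contra hcon
      push Not at hcon
      exact ha1 (Matrix.ext hcon)
    obtain ⟨i, j, hij⟩ := hij
    choose g hg using hs x
    refine ⟨∑ l, g (Matrix.single l i (R x a i j)⁻¹) * a * g (Matrix.single j l 1), ?_, ?_⟩
    · rw [map_sum]
      have h2 : ∀ l : ι, R x (g (Matrix.single l i (R x a i j)⁻¹) * a * g (Matrix.single j l 1)) =
          Matrix.single l l 1 := by
        intro l
        rw [map_mul, map_mul, hg, hg]
        ext u v
        rw [Matrix.mul_assoc]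
        by_cases hu : u = l
        · subst hu
          rw [Matrix.single_mul_apply_same]
          by_cases hv : v = u
          · subst hv
            rw [Matrix.mul_single_apply_same, Matrix.single_apply_same, mul_one,
              inv_mul_cancel₀ hij]
          · rw [Matrix.mul_single_apply_of_ne (hbj := hv), mul_zero, Matrix.single_apply_of_ne]
            exact fun hc => hv hc.2.symm
        · rw [Matrix.single_mul_apply_of_ne (h := hu), Matrix.single_apply_of_ne]
          exact fun hc => hu hc.1.symm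
      rw [Finset.sum_congr rfl fun l _ => h2 l]
      exact Matrix.sum_single_one
    · rw [map_sum]
      refine Finset.sum_eq_zero fun l _ => ?_
      rw [map_mul, map_mul, ha0, mul_zero, zero_mul]
  have h2 : ∀ s : Finset X, x ∉ s → ∃ b, R x b = 1 ∧ ∀ y ∈ s, R y b = 0 := by
    intro s
    induction s using Finset.induction_on with
    | empty => exact fun _ => ⟨1, map_one _, fun y hy => absurd hy (Finset.notMem_empty y)⟩
    | insert z s hz ih =>
      intro hx
      rw [Finset.mem_insert, not_or] at hx
      obtain ⟨b, hb1, hb2⟩ := ih hx.2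
      obtain ⟨c, hc1, hc2⟩ := h1 z (Ne.symm hx.1)
      refine ⟨b * c, by rw [map_mul, hb1, hc1, mul_one], fun y hy => ?_⟩
      rw [map_mul]
      rcases Finset.mem_insert.1 hy with rfl | hy
      · rw [hc2, mul_zero]
      · rw [hb2 y hy, zero_mul]
  obtain ⟨b, hb1, hb2⟩ := h2 (Finset.univ.erase x) (Finset.notMem_erase x _)
  obtain ⟨a, ha⟩ := hs x M
  refine ⟨a * b, by rw [map_mul, ha, hb1, mul_one], fun y hy => ?_⟩
  rw [map_mul, hb2 y (Finset.mem_erase.2 ⟨hy, Finset.mem_univ y⟩), mul_zero]
-- END separate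

end Pool.Agent.Wpp
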