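import Pool.Agent.Wil.Basic
import Pool.Agent.Wpp.Inn

set_option autoImplicit false

/-! A representation of `p`-power dimension extends to its inertia group, up to a linear character. -/

namespace Pool.Agent.Wpp

open MonoidAlgebra Pool.Agent.Wil

-- BEGIN root
/-- PROOF. `PerfectField.toPerfectRing`, `iterateFrobeniusEquiv k p a`. -/
theorem root {p : ℕ} [Fact p.Prime] (a : ℕ) {k : Type} [Field k] [CharP k p] [PerfectField k] :
    (∀ c : k, ∃ r : k, r ^ (p ^ a) = c) ∧ ∀ r s : k, r ^ (p ^ a) = s ^ (p ^ a) → r = s := by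
  have hE : ExpChar k p := ExpChar.prime (Fact.out : p.Prime)
  have hP : PerfectRing k p := PerfectField.toPerfectRing p
  constructor
  · intro c
    obtain ⟨r, hr⟩ := (iterateFrobeniusEquiv k p a).surjective c
    refine ⟨r, ?_⟩
    rw [← hr, iterateFrobeniusEquiv_apply, iterateFrobenius_def]
  · intro r s h
    apply (iterateFrobeniusEquiv k p a).injective
    rw [iterateFrobeniusEquiv_apply, iterateFrobeniusEquiv_apply]
    exact h
-- END root

-- BEGIN twist
/-- PROOF. `c n` := the `p^a`-th root of `(V n).det⁻¹` (`root`), multiplicative by uniqueness; `V' n = c n • V n`; determinant `(c n)^(p^a) * det (V n) = 1`; the span contains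
`V n = (c n)⁻¹ • V' n`. -/
theorem twist {p : ℕ} [Fact p.Prime] {a : ℕ} {k ι N : Type} [Field k] [CharP k p]
    [PerfectField k] [Fintype ι] [DecidableEq ι] [Group N] (V : N →* Matrix ι ι k)
    (hc : Fintype.card ι = p ^ a) (hV : Submodule.span k (Set.range V) = ⊤) :
    ∃ V' : N →* Matrix ι ι k, Submodule.span k (Set.range V') = ⊤ ∧ ∀ n, (V' n).det = 1 := by
  obtain ⟨hex, huni⟩ := root (p := p) a (k := k)
  have hdet : ∀ n, (V n).det ≠ 0 := by
    intro n hn
    have h1 : V n * V n⁻¹ = 1 := by rw [← map_mul, mul_inv_cancel, map_one]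
    have h2 : (V n).det * (V n⁻¹).det = 1 := by rw [← Matrix.det_mul, h1, Matrix.det_one]
    rw [hn, zero_mul] at h2
    exact zero_ne_one h2
  choose c hcn using fun n => hex (V n).det⁻¹
  have hc0 : ∀ n, c n ≠ 0 := by
    intro n h0
    have h1 := hcn n
    rw [h0, zero_pow (pow_ne_zero a (Nat.Prime.ne_zero Fact.out))] at h1
    exact inv_ne_zero (hdet n) h1.symm
  have hmul : ∀ m n, c (m * n) = c m * c n := by
    intro m n
    refine huni _ _ ?_
    rw [mul_pow, hcn, hcn, hcn, map_mul, Matrix.det_mul, mul_inv]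
  have hone : c 1 = 1 := by
    refine huni _ _ ?_
    rw [hcn, map_one, Matrix.det_one, one_pow, inv_one]
  refine ⟨{ toFun := fun n => c n • V n
            map_one' := by rw [hone, map_one, one_smul]
            map_mul' := fun m n => by rw [hmul, map_mul, smul_mul_smul_comm] }, ?_, ?_⟩
  · rw [eq_top_iff, ← hV, Submodule.span_le]
    rintro _ ⟨n, rfl⟩
    have h1 : V n = (c n)⁻¹ • (c n • V n) := by rw [smul_smul, inv_mul_cancel₀ (hc0 n), one_smul]
    rw [h1]
    exact Submodule.smul_mem _ _ (Submodule.subset_span ⟨n, rfl⟩)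
  · intro n
    show (c n • V n).det = 1
    rw [Matrix.det_smul, hc, hcn, inv_mul_cancel₀ (hdet n)]
-- END twist

section inertia
variable {k ι G : Type} [Field k] [Fintype ι] [DecidableEq ι] [Group G]

/-- the inertia group of a representation (intertwiners of determinant one) -/
def inT (N : Subgroup G) [N.Normal] (V : N →* Matrix ι ι k) : Subgroup G where
  carrier := {g | ∃ P : Matrix ι ι k, P.det = 1 ∧ ∀ n : N, P * V n = V (MulAut.conjNormal g n) * P}
  mul_mem' := by
    rintro g h ⟨P, hP, hPn⟩ ⟨Q, hQ, hQn⟩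
    refine ⟨P * Q, by rw [Matrix.det_mul, hP, hQ, mul_one], fun n => ?_⟩
    rw [mul_assoc, hQn, ← mul_assoc, hPn, mul_assoc, map_mul]
    rfl
  one_mem' := ⟨1, Matrix.det_one, fun n => by rw [one_mul, mul_one, map_one]; rfl⟩
  inv_mem' := by
    rintro g ⟨P, hP, hPn⟩
    have hu : IsUnit P.det := by rw [hP]; exact isUnit_one
    refine ⟨P⁻¹, by rw [Matrix.det_nonsing_inv, hP]; exact Ring.inverse_one k, fun n => ?_⟩
    have h := hPn (MulAut.conjNormal g⁻¹ n)
    have h2 : MulAut.conjNormal g (MulAut.conjNormal g⁻¹ n) = n := by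
      rw [← MulAut.mul_apply, ← map_mul, mul_inv_cancel, map_one]; rfl
    rw [h2] at h
    calc P⁻¹ * V n = P⁻¹ * (V n * P) * P⁻¹ := by
          rw [← mul_assoc, mul_assoc, Matrix.mul_nonsing_inv P hu, mul_one]
      _ = P⁻¹ * (P * V (MulAut.conjNormal g⁻¹ n)) * P⁻¹ := by rw [h]
      _ = V (MulAut.conjNormal g⁻¹ n) * P⁻¹ := by
          rw [← mul_assoc, Matrix.nonsing_inv_mul P hu, one_mul]

theorem mem_inT (N : Subgroup G) [N.Normal] (V : N →* Matrix ι ι k) (g : G) :
    g ∈ inT N V ↔ ∃ P : Matrix ι ι k, P.det = 1 ∧ ∀ n : N, P * V n = V (MulAut.conjNormal g n) * P :=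
  Iff.rfl

theorem le_inT (N : Subgroup G) [N.Normal] (V : N →* Matrix ι ι k) (hd : ∀ n, (V n).det = 1) :
    N ≤ inT N V := by
  intro x hx
  refine ⟨V ⟨x, hx⟩, hd _, fun n => ?_⟩
  rw [← map_mul, ← map_mul]
  congr 1
  ext
  simp

-- BEGIN ext
theorem ext_unique {p : ℕ} [Fact p.Prime] {a : ℕ} [CharP k p] [PerfectField k] (N : Subgroup G) [N.Normal]
    (V : N →* Matrix ι ι k) (hc : Fintype.card ι = p ^ a)
    (hV : Submodule.span k (Set.range V) = ⊤) (g : G) (P Q : Matrix ι ι k) (hP : P.det = 1) (hQ : Q.det = 1)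
    (hPn : ∀ n : N, P * V n = V (MulAut.conjNormal g n) * P)
    (hQn : ∀ n : N, Q * V n = V (MulAut.conjNormal g n) * Q) : P = Q := by
  have hu : IsUnit P.det := by rw [hP]; exact isUnit_one
  have h1 : ∀ n : N, P⁻¹ * V (MulAut.conjNormal g n) = V n * P⁻¹ := by
    intro n
    calc P⁻¹ * V (MulAut.conjNormal g n) = P⁻¹ * (V (MulAut.conjNormal g n) * P) * P⁻¹ := by
          rw [← mul_assoc, mul_assoc, Matrix.mul_nonsing_inv P hu, mul_one]
      _ = P⁻¹ * (P * V n) * P⁻¹ := by rw [hPn]
      _ = V n * P⁻¹ := by rw [← mul_assoc, Matrix.nonsing_inv_mul P hu, one_mul]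
  have h2 : ∀ n : N, (P⁻¹ * Q) * V n = V n * (P⁻¹ * Q) := by
    intro n
    rw [mul_assoc, hQn, ← mul_assoc, h1, mul_assoc]
  have h3 : ∀ M : Matrix ι ι k, (P⁻¹ * Q) * M = M * (P⁻¹ * Q) := by
    intro M
    have hM : M ∈ Submodule.span k (Set.range V) := by rw [hV]; exact Submodule.mem_top
    induction hM using Submodule.span_induction with
    | mem x hx =>
      obtain ⟨n, rfl⟩ := hx
      exact h2 n
    | zero => rw [mul_zero, zero_mul]
    | add x y _ _ hx hy => rw [mul_add, add_mul, hx, hy]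
    | smul c x _ hx => rw [mul_smul_comm, smul_mul_assoc, hx]
  have h4 : (P⁻¹ * Q) ∈ Set.range (Matrix.scalar ι) :=
    Matrix.mem_range_scalar_of_commute_single fun i j _ => (h3 (Matrix.single i j 1)).symm
  obtain ⟨c, hcc⟩ := h4
  have h5 : (P⁻¹ * Q).det = 1 := by
    rw [Matrix.det_mul, Matrix.det_nonsing_inv, hP, hQ, mul_one]
    exact Ring.inverse_one k
  have h6 : c ^ (p ^ a) = 1 := by
    rw [← hcc, Matrix.scalar_apply, Matrix.det_diagonal, Finset.prod_const, Finset.card_univ, hc] at h5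
    exact h5
  have h7 : c = 1 := (root (p := p) a (k := k)).2 c 1 (by rw [h6, one_pow])
  rw [h7, map_one] at hcc
  have h8 : P * (P⁻¹ * Q) = Q := by rw [← mul_assoc, Matrix.mul_nonsing_inv P hu, one_mul]
  rw [← hcc, mul_one] at h8
  exact h8

/-- PROOF. The intertwiner of determinant one is unique: `P⁻¹ * P'` commutes with all `V n`, so with all matrices (`hV`), so it is a scalar `c` (`Matrix.mem_range_scalar_of_commute_single`-like
or `Matrix.center`), `c ^ (p ^ a) = 1 = 1 ^ (p ^ a)`, `c = 1` (`root`). So the chosen intertwiners are multiplicative, and the one of `n : N` is `V n` (`le_inT`). -/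
theorem ext {p : ℕ} [Fact p.Prime] {a : ℕ} [CharP k p] [PerfectField k] (N : Subgroup G) [N.Normal]
    (V : N →* Matrix ι ι k) (hc : Fintype.card ι = p ^ a)
    (hV : Submodule.span k (Set.range V) = ⊤) (hd : ∀ n, (V n).det = 1) :
    ∃ ρ : inT N V →* Matrix ι ι k,
      ∀ (n : N) (h : (n : G) ∈ inT N V), ρ ⟨(n : G), h⟩ = V n := by
  choose P hPd hPn using fun g : inT N V => (mem_inT N V (g : G)).1 g.2
  have huq := ext_unique (p := p) N V hc hV
  refine ⟨{ toFun := P
            map_one' := ?_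
            map_mul' := ?_ }, ?_⟩
  · refine huq 1 _ _ (hPd 1) Matrix.det_one (hPn 1) fun n => ?_
    rw [one_mul, mul_one, map_one]
    rfl
  · intro g h
    refine huq ((g * h : inT N V) : G) _ _ (hPd _) ?_ (hPn _) fun n => ?_
    · rw [Matrix.det_mul, hPd, hPd, mul_one]
    · rw [mul_assoc, hPn h, ← mul_assoc, hPn g, mul_assoc, Subgroup.coe_mul, map_mul]
      rfl
  · intro n h
    show P ⟨(n : G), h⟩ = V n
    refine huq (n : G) _ _ (hPd _) (hd n) (hPn _) fun m => ?_
    rw [← map_mul, ← map_mul]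
    congr 1
    ext
    simp
-- END ext

-- BEGIN sepg
/-- PROOF. Otherwise `intertw` with `R = lift V`, `R' = (lift V).comp (conjN N g)` (both onto: `hV`) gives `P`, `IsUnit P.det`; scale it by the `p^a`-th root of `P.det⁻¹` (`root`,
`Matrix.det_smul`), so `g ∈ inT N V` (take `a = single n 1`). -/
theorem sepg {p : ℕ} [Fact p.Prime] {a : ℕ} [CharP k p] [PerfectField k] (N : Subgroup G) [N.Normal]
    (V : N →* Matrix ι ι k) (hc : Fintype.card ι = p ^ a)
    (hV : Submodule.span k (Set.range V) = ⊤) (g : G) (hg : g ∉ inT N V) :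
    ∃ b : MonoidAlgebra k N, MonoidAlgebra.lift k (Matrix ι ι k) N V b = 0 ∧
      MonoidAlgebra.lift k (Matrix ι ι k) N V (conjN (k := k) N g b) ≠ 0 := by
  by_contra hcon
  push Not at hcon
  apply hg
  have hsurj : Function.Surjective (MonoidAlgebra.lift k (Matrix ι ι k) N V) := by
    intro M
    have hM : M ∈ Submodule.span k (Set.range V) := by rw [hV]; exact Submodule.mem_top
    have hle : Submodule.span k (Set.range V) ≤
        LinearMap.range (MonoidAlgebra.lift k (Matrix ι ι k) N V).toLinearMap := by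
      rw [Submodule.span_le]
      rintro _ ⟨n, rfl⟩
      refine ⟨MonoidAlgebra.single n 1, ?_⟩
      rw [AlgHom.toLinearMap_apply, MonoidAlgebra.lift_single, one_smul]
    exact hle hM
  let R' : MonoidAlgebra k N →ₐ[k] Matrix ι ι k :=
    (MonoidAlgebra.lift k (Matrix ι ι k) N V).comp (conjN (k := k) N g).toAlgHom
  have hR' : Function.Surjective R' := hsurj.comp (conjN (k := k) N g).surjective
  obtain ⟨P, hP, hPa⟩ := intertw (MonoidAlgebra.lift k (Matrix ι ι k) N V) R' hsurj hR' hcon
  obtain ⟨c, hcr⟩ := (root (p := p) a (k := k)).1 P.det⁻¹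
  refine (mem_inT N V g).2 ⟨c • P, ?_, fun n => ?_⟩
  · rw [Matrix.det_smul, hc, hcr]
    exact inv_mul_cancel₀ hP.ne_zero
  · have h1 := hPa (MonoidAlgebra.single n 1)
    have h2 : R' (MonoidAlgebra.single n 1) = V (MulAut.conjNormal g n) := by
      show MonoidAlgebra.lift k (Matrix ι ι k) N V (MonoidAlgebra.domCongr k k (MulAut.conjNormal g)
        (MonoidAlgebra.single n 1)) = _
      rw [MonoidAlgebra.domCongr_single, MonoidAlgebra.lift_single, one_smul]
    rw [h2, MonoidAlgebra.lift_single, one_smul] at h1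
    rw [smul_mul_assoc, mul_smul_comm, h1]
-- END sepg

end inertia

end Pool.Agent.Wpp
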