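import Pool.Agent.Wnx.Idx
import Pool.Agent.Wil.Rel
import Pool.Agent.Wpp.Ext

set_option autoImplicit false

/-! Induction from the inertia group. -/

namespace Pool.Agent.Wpp

open MonoidAlgebra Pool.Agent.Wil Pool.Agent.Wnx

section cli
variable {k ι G : Type} [Field k] [Fintype ι] [DecidableEq ι] [Group G] [Finite G]

/-- the representation of `N`, conjugated by `x` -/
noncomputable def cj (N : Subgroup G) [N.Normal] (V : N →* Matrix ι ι k) (x : G) :
    MonoidAlgebra k N →ₐ[k] Matrix ι ι k :=
  (MonoidAlgebra.lift k (Matrix ι ι k) N V).comp (conjN (k := k) N x).toAlgHom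

-- BEGIN cosets
omit [Fintype ι] [DecidableEq ι] [Finite G] in
theorem cosets_conj (N : Subgroup G) [N.Normal] (g h : G) (b : MonoidAlgebra k N) :
    conjN (k := k) N g (conjN (k := k) N h b) = conjN (k := k) N (g * h) b := by
  induction b using MonoidAlgebra.induction_linear with
  | zero => rw [map_zero, map_zero, map_zero]
  | add a b ha hb => rw [map_add, map_add, map_add, ha, hb]
  | single n r =>
    simp only [conjN, MonoidAlgebra.domCongr_single]
    rw [map_mul]
    rfl

omit [Finite G] in
theorem cosets_surj (N : Subgroup G) [N.Normal] (V : N →* Matrix ι ι k)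
    (hV : Submodule.span k (Set.range V) = ⊤) (x : G) : Function.Surjective (cj N V x) := by
  have h1 : Function.Surjective (MonoidAlgebra.lift k (Matrix ι ι k) N V) := by
    have h2 : LinearMap.range (MonoidAlgebra.lift k (Matrix ι ι k) N V).toLinearMap = ⊤ := by
      rw [eq_top_iff, ← hV, Submodule.span_le]
      rintro _ ⟨n, rfl⟩
      refine ⟨single n 1, ?_⟩
      show MonoidAlgebra.lift k (Matrix ι ι k) N V (single n 1) = V n
      rw [MonoidAlgebra.lift_single, one_smul]
    exact LinearMap.range_eq_top.1 h2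
  intro M
  obtain ⟨b, hb⟩ := h1 M
  obtain ⟨c, hc⟩ := (conjN (k := k) N x).surjective b
  refine ⟨c, ?_⟩
  show MonoidAlgebra.lift k (Matrix ι ι k) N V (conjN (k := k) N x c) = M
  rw [hc, hb]

/-- PROOF. `separate` for the family `x ↦ cj N V x.out⁻¹`, `x : G ⧸ inT N V`. For `x ≠ y`: `g = x.out⁻¹ * y.out ∉ inT N V` (`QuotientGroup.eq`), `sepg` gives `b`; take
`conjN N y.out b`. -/
theorem cosets {p : ℕ} [Fact p.Prime] {a : ℕ} [CharP k p] [PerfectField k] (N : Subgroup G) [N.Normal]
    (V : N →* Matrix ι ι k) (hc : Fintype.card ι = p ^ a)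
    (hV : Submodule.span k (Set.range V) = ⊤) (x : G ⧸ inT N V) (M : Matrix ι ι k) :
    ∃ b : MonoidAlgebra k N, cj N V (x.out)⁻¹ b = M ∧
      ∀ y : G ⧸ inT N V, y ≠ x → cj N V (y.out)⁻¹ b = 0 := by
  classical
  let _ : Fintype (G ⧸ inT N V) := Fintype.ofFinite _
  refine separate (fun x : G ⧸ inT N V => cj N V (x.out)⁻¹) (fun x => cosets_surj N V hV _) ?_ x M
  intro x y hxy
  have hg : (x.out)⁻¹ * y.out ∉ inT N V := by
    intro h
    apply hxy
    rw [← QuotientGroup.eq, QuotientGroup.out_eq', QuotientGroup.out_eq'] at h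
    exact h
  obtain ⟨b, hb1, hb2⟩ := sepg N V hc hV _ hg
  refine ⟨conjN (k := k) N y.out b, ?_, ?_⟩
  · show MonoidAlgebra.lift k (Matrix ι ι k) N V (conjN (k := k) N (y.out)⁻¹ (conjN (k := k) N y.out b)) = 0
    rw [cosets_conj, inv_mul_cancel]
    have h1 : conjN (k := k) N (1 : G) b = b := by
      have h2 := cosets_conj (k := k) N (1 : G) 1 b
      rw [mul_one] at h2
      exact (conjN (k := k) N (1 : G)).injective h2
    rw [h1]
    exact hb1
  · show MonoidAlgebra.lift k (Matrix ι ι k) N V (conjN (k := k) N (x.out)⁻¹ (conjN (k := k) N y.out b)) ≠ 0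
    rw [cosets_conj]
    exact hb2
-- END cosets

-- BEGIN ind_diag
/-- PROOF. Both sides are linear in `b`; for `b = single n 1`: `lmHom` is `lm` of `n`, whose `(c, d)` entry is `0` for `c ≠ d` (`mem_iff`, `n` fixes the cosets of `T ≥ N`) and
`single ⟨c.out⁻¹ * n * c.out, _⟩ 1` for `c = d`. -/
theorem ind_diag (N T : Subgroup G) [N.Normal] (hNT : N ≤ T) [Fintype (G ⧸ T)] [DecidableEq (G ⧸ T)]
    (V : N →* Matrix ι ι k) (ρ : T →* Matrix ι ι k)
    (hρ : ∀ (n : N) (h : (n : G) ∈ T), ρ ⟨(n : G), h⟩ = V n)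
    (Θ : MonoidAlgebra k T →ₐ[k] Matrix ι ι (MonoidAlgebra k (T ⧸ N.subgroupOf T)))
    (hΘ : ∀ t i j, Θ (single t 1) i j = single (QuotientGroup.mk t : T ⧸ N.subgroupOf T) (ρ t i j))
    (b : MonoidAlgebra k N) (c d : G ⧸ T) :
    Θ (lmHom T k (ind (k := k) N.subtype b) c d) =
      if c = d then (cj N V (c.out)⁻¹ b).map (fun r => single (1 : T ⧸ N.subgroupOf T) r) else 0 := by
  induction b using MonoidAlgebra.induction_linear with
  | zero =>
    rw [map_zero, map_zero, map_zero]
    have h0 : (0 : Matrix (G ⧸ T) (G ⧸ T) (MonoidAlgebra k T)) c d = 0 := rfl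
    rw [h0, map_zero]
    split_ifs
    · ext1 i j
      rw [Matrix.map_apply, Matrix.zero_apply, Matrix.zero_apply, MonoidAlgebra.single_zero]
    · rfl
  | add a b ha hb =>
    rw [map_add, map_add, Matrix.add_apply, map_add, ha, hb]
    split_ifs
    · ext1 i j
      rw [Matrix.add_apply, Matrix.map_apply, Matrix.map_apply, Matrix.map_apply, map_add, Matrix.add_apply,
        MonoidAlgebra.single_add]
    · rw [add_zero]
  | single n r =>
    have h1 : ind (k := k) N.subtype (single n r) = single (n : G) r := by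
      simp [ind]
    have h2 : lmHom T k (single (n : G) r) = r • lm T k (n : G) := by
      rw [lmHom, MonoidAlgebra.lift_single]
      rfl
    rw [h1, h2, Matrix.smul_apply, map_smul]
    split_ifs with hcd
    · subst hcd
      have hmemN : (c.out)⁻¹ * (n : G) * c.out ∈ N := by
        have := (inferInstance : N.Normal).conj_mem (n : G) n.2 (c.out)⁻¹
        rwa [inv_inv] at this
      have h := hNT hmemN
      rw [lm_apply T (n : G) c c h]
      ext1 i j
      rw [Matrix.smul_apply, hΘ, Matrix.map_apply]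
      have h3 : (QuotientGroup.mk (⟨(c.out)⁻¹ * (n : G) * c.out, h⟩ : T) : T ⧸ N.subgroupOf T) = 1 := by
        rw [QuotientGroup.eq_one_iff, Subgroup.mem_subgroupOf]
        exact hmemN
      have h4 : cj N V (c.out)⁻¹ (single n r) = r • V ⟨(c.out)⁻¹ * (n : G) * c.out, hmemN⟩ := by
        show MonoidAlgebra.lift k (Matrix ι ι k) N V (conjN (k := k) N (c.out)⁻¹ (single n r)) = _
        simp only [conjN, MonoidAlgebra.domCongr_single]
        rw [MonoidAlgebra.lift_single]
        congr 2
        ext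
        simp
      rw [h3, h4, Matrix.smul_apply, hρ ⟨(c.out)⁻¹ * (n : G) * c.out, hmemN⟩ h, MonoidAlgebra.smul_single]
    · rw [lm_apply_ne T (n : G) c d, map_zero, smul_zero]
      rw [mem_iff]
      intro h
      apply hcd
      rw [h]
      conv_rhs => rw [← QuotientGroup.out_eq' d]
      conv_lhs => rw [← QuotientGroup.out_eq' d]
      show (QuotientGroup.mk ((n : G) * d.out) : G ⧸ T) = QuotientGroup.mk d.out
      rw [QuotientGroup.eq]
      have h5 : ((n : G) * d.out)⁻¹ * d.out = (d.out)⁻¹ * (n : G)⁻¹ * (d.out) := by group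
      rw [h5]
      have := (inferInstance : N.Normal).conj_mem (n : G)⁻¹ (N.inv_mem n.2) (d.out)⁻¹
      rw [inv_inv] at this
      exact hNT this
-- END ind_diag

-- BEGIN ind_surj
/-- PROOF. Let `F = Θ.mapMatrix.comp (lmHom T k)`, an algebra homomorphism onto its range, a subalgebra. By `ind_diag` and `hsep` the range contains
`Matrix.single c c (M.map (single 1))` for all `c`, `M`, in particular `Matrix.single c c 1`. `F (single (c.out * t * c.out⁻¹) 1) c c = Θ (single t 1)` and
`F (single (c.out * d.out⁻¹) 1) c d = 1`, so multiplying by the `Matrix.single c c 1` from both sides the range contains `Matrix.single c c (Θ u)` for all `u` and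
`Matrix.single c d 1`, and `Θ` is onto. -/
theorem ind_surj (N T : Subgroup G) [N.Normal] (hNT : N ≤ T) [Fintype (G ⧸ T)] [DecidableEq (G ⧸ T)]
    (V : N →* Matrix ι ι k) (ρ : T →* Matrix ι ι k)
    (hρ : ∀ (n : N) (h : (n : G) ∈ T), ρ ⟨(n : G), h⟩ = V n)
    (Θ : MonoidAlgebra k T →ₐ[k] Matrix ι ι (MonoidAlgebra k (T ⧸ N.subgroupOf T)))
    (hΘ : ∀ t i j, Θ (single t 1) i j = single (QuotientGroup.mk t : T ⧸ N.subgroupOf T) (ρ t i j))
    (hΘs : Function.Surjective Θ)
    (hsep : ∀ (x : G ⧸ T) (M : Matrix ι ι k), ∃ b : MonoidAlgebra k N, cj N V (x.out)⁻¹ b = M ∧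
      ∀ y : G ⧸ T, y ≠ x → cj N V (y.out)⁻¹ b = 0) :
    Function.Surjective ((Θ.mapMatrix (m := G ⧸ T)).comp (lmHom T k)) := by
  have hF : ∀ (a : MonoidAlgebra k G) (c d : G ⧸ T),
      ((Θ.mapMatrix (m := G ⧸ T)).comp (lmHom T k)) a c d = Θ (lmHom T k a c d) := fun a c d => rfl
  have key1 : ∀ c : G ⧸ T, Matrix.single c c (1 : Matrix ι ι (MonoidAlgebra k (T ⧸ N.subgroupOf T))) ∈
      ((Θ.mapMatrix (m := G ⧸ T)).comp (lmHom T k)).range := by
    intro c
    obtain ⟨b, hb1, hb2⟩ := hsep c 1
    refine ⟨ind (k := k) N.subtype b, ?_⟩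
    change ((Θ.mapMatrix (m := G ⧸ T)).comp (lmHom T k)) (ind (k := k) N.subtype b) = _
    ext1 x y
    rw [hF, ind_diag N T hNT V ρ hρ Θ hΘ b x y]
    by_cases hxy : x = y
    · subst hxy
      rw [if_pos rfl]
      by_cases hxc : x = c
      · subst hxc
        rw [hb1, Matrix.single_apply_same]
        ext1 i j
        rw [Matrix.map_apply, Matrix.one_apply, Matrix.one_apply]
        split_ifs
        · rfl
        · exact MonoidAlgebra.single_zero _
      · rw [hb2 x hxc, Matrix.single_apply_of_ne _ _ _ _ _ (fun h => hxc h.1.symm)]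
        ext1 i j
        rw [Matrix.map_apply, Matrix.zero_apply, Matrix.zero_apply]
        exact MonoidAlgebra.single_zero _
    · rw [if_neg hxy, Matrix.single_apply_of_ne]
      rintro ⟨h1, h2⟩
      exact hxy (h1.symm.trans h2)
  have key2 : ∀ (c d : G ⧸ T) (t : T), Matrix.single c d (Θ (single t 1)) ∈
      ((Θ.mapMatrix (m := G ⧸ T)).comp (lmHom T k)).range := by
    intro c d t
    have h1 : ((Θ.mapMatrix (m := G ⧸ T)).comp (lmHom T k)) (single (c.out * t * (d.out)⁻¹) 1) c d =
        Θ (single t 1) := by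
      rw [hF]
      congr 1
      have h2 : lmHom T k (single (c.out * t * (d.out)⁻¹) 1) = lm T k (c.out * t * (d.out)⁻¹) := by
        rw [lmHom, MonoidAlgebra.lift_single, one_smul]
        rfl
      have h3 : (c.out)⁻¹ * (c.out * t * (d.out)⁻¹) * d.out = t := by group
      have h4 : (c.out)⁻¹ * (c.out * t * (d.out)⁻¹) * d.out ∈ T := by
        rw [h3]
        exact t.2
      rw [h2, lm_apply T _ c d h4]
      congr 1
      exact Subtype.ext h3
    have h5 := Subalgebra.mul_mem _ (Subalgebra.mul_mem _ (key1 c)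
      (AlgHom.mem_range_self ((Θ.mapMatrix (m := G ⧸ T)).comp (lmHom T k))
        (single (c.out * t * (d.out)⁻¹) 1))) (key1 d)
    rw [Matrix.single_mul_mul_single, one_mul, mul_one, h1] at h5
    exact h5
  have key3 : ∀ (c d : G ⧸ T) (u : MonoidAlgebra k T), Matrix.single c d (Θ u) ∈
      ((Θ.mapMatrix (m := G ⧸ T)).comp (lmHom T k)).range := by
    intro c d u
    induction u using MonoidAlgebra.induction_linear with
    | zero =>
      rw [map_zero, Matrix.single_zero]
      exact Subalgebra.zero_mem _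
    | add a b ha hb =>
      rw [map_add, Matrix.single_add]
      exact Subalgebra.add_mem _ ha hb
    | single t r =>
      have h1 : (single t r : MonoidAlgebra k T) = r • single t 1 := by
        rw [MonoidAlgebra.smul_single, smul_eq_mul, mul_one]
      rw [h1, map_smul, ← Matrix.smul_single]
      exact Subalgebra.smul_mem _ (key2 c d t) r
  intro Z
  have h6 : Z ∈ ((Θ.mapMatrix (m := G ⧸ T)).comp (lmHom T k)).range := by
    rw [Matrix.matrix_eq_sum_single Z]
    refine Subalgebra.sum_mem _ fun c _ => Subalgebra.sum_mem _ fun d _ => ?_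
    obtain ⟨u, hu⟩ := hΘs (Z c d)
    rw [← hu]
    exact key3 c d u
  exact h6
-- END ind_surj

-- BEGIN inertia_le
/-- PROOF. `Q = T ⧸ N.subgroupOf T` embeds into `G ⧸ N` with index `T.index`: `ssDim_le_of_hom` with `j` = `QuotientGroup.map _ _ T.subtype _` (injective), `r = T.index`
(`Nat.card (G ⧸ N) = T.index * Nat.card Q` from `Subgroup.card_mul_index`, `Subgroup.relIndex`...). -/
theorem inertia_le (N T : Subgroup G) [N.Normal] (hNT : N ≤ T) :
    ssDim k (G ⧸ N) ≤ T.index ^ 2 * ssDim k (T ⧸ N.subgroupOf T) := by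
  refine ssDim_le_of_hom (QuotientGroup.map (N.subgroupOf T) N T.subtype (le_refl _)) ?_ T.index ?_
  · rw [injective_iff_map_eq_one]
    intro x
    induction x using QuotientGroup.induction_on with
    | H t =>
      intro h
      rw [QuotientGroup.map_mk] at h
      have h1 : (T.subtype t) ∈ N := (QuotientGroup.eq_one_iff _).1 h
      exact (QuotientGroup.eq_one_iff _).2 (Subgroup.mem_subgroupOf.2 h1)
  · have h1 := Subgroup.relIndex_mul_index hNT
    rw [mul_comm] at h1
    exact h1.symm
-- END inertia_le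

-- BEGIN pp_step
/-- PROOF. `twist` (determinant one), `T = inT N V`, `le_inT`, `ext`, `theta` and `theta_surj` for the group `T`, its normal subgroup `N.subgroupOf T` and `R = MonoidAlgebra.lift ρ`;
`cosets`, `ind_surj`; `ssA_surj`, `ssA_mat_ge` twice: `T.index ^ 2 * (card ι ^ 2 * ssDim k Q) ≤ ssDim k G`; `inertia_le`. -/
theorem pp_step {p : ℕ} [Fact p.Prime] {a : ℕ} [CharP k p] [PerfectField k] (N : Subgroup G) [N.Normal]
    (V : N →* Matrix ι ι k) (hc : Fintype.card ι = p ^ a)
    (hV : Submodule.span k (Set.range V) = ⊤) :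
    Fintype.card ι ^ 2 * ssDim k (G ⧸ N) ≤ ssDim k G := by
  classical
  obtain ⟨V', hV', hd⟩ := twist V hc hV
  have hNT := le_inT N V' hd
  obtain ⟨ρ, hρ⟩ := ext N V' hc hV' hd
  have : Fintype (G ⧸ inT N V') := Fintype.ofFinite _
  obtain ⟨Θ, hΘ⟩ := theta (k := k) (N.subgroupOf (inT N V')) (MonoidAlgebra.lift k (Matrix ι ι k) (inT N V') ρ)
  have hR1 : ∀ t : inT N V', MonoidAlgebra.lift k (Matrix ι ι k) (inT N V') ρ (single t 1) = ρ t := by
    intro t
    rw [MonoidAlgebra.lift_single, one_smul]
  have hΘs : Function.Surjective Θ := by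
    refine theta_surj (k := k) (N.subgroupOf (inT N V')) (MonoidAlgebra.lift k (Matrix ι ι k) (inT N V') ρ) ?_ Θ hΘ
    intro M
    have h1 : Submodule.span k (Set.range V') ≤
        LinearMap.range (((MonoidAlgebra.lift k (Matrix ι ι k) (inT N V') ρ).comp
          (ind (k := k) (N.subgroupOf (inT N V')).subtype)).toLinearMap) := by
      rw [Submodule.span_le]
      rintro _ ⟨n, rfl⟩
      refine ⟨single ⟨⟨(n : G), hNT n.2⟩, Subgroup.mem_subgroupOf.2 n.2⟩ 1, ?_⟩
      change MonoidAlgebra.lift k (Matrix ι ι k) (inT N V') ρ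
        (ind (k := k) (N.subgroupOf (inT N V')).subtype
          (single ⟨⟨(n : G), hNT n.2⟩, Subgroup.mem_subgroupOf.2 n.2⟩ 1)) = V' n
      rw [ind, MonoidAlgebra.mapDomainAlgHom_apply, MonoidAlgebra.mapDomain_single]
      exact (hR1 _).trans (hρ n _)
    have h2 : M ∈ Submodule.span k (Set.range V') := by
      rw [hV']
      trivial
    obtain ⟨b, hb⟩ := h1 h2
    exact ⟨b, hb⟩
  have hs := ind_surj N (inT N V') hNT V' ρ hρ Θ (fun t i j => by rw [hΘ, hR1]) hΘs
    (fun x M => cosets N V' hc hV' x M)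
  have h3 := ssA_surj ((Θ.mapMatrix (m := G ⧸ inT N V')).comp (lmHom (inT N V') k)) hs
  have h4 := (ssA_mat_ge (k := k) (A := Matrix ι ι (MonoidAlgebra k ((inT N V') ⧸ N.subgroupOf (inT N V'))))
    (ι := G ⧸ inT N V')).trans h3
  have h5 := ssA_mat_ge (k := k) (A := MonoidAlgebra k ((inT N V') ⧸ N.subgroupOf (inT N V'))) (ι := ι)
  have h6 := inertia_le (k := k) N (inT N V') hNT
  have h7 : (inT N V').index = Fintype.card (G ⧸ inT N V') := by
    rw [Subgroup.index, Nat.card_eq_fintype_card]
  calc Fintype.card ι ^ 2 * ssDim k (G ⧸ N)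
      ≤ Fintype.card ι ^ 2 * ((inT N V').index ^ 2 * ssDim k ((inT N V') ⧸ N.subgroupOf (inT N V'))) :=
        Nat.mul_le_mul_left _ h6
    _ = Fintype.card (G ⧸ inT N V') ^ 2 * (Fintype.card ι ^ 2 *
          ssA k (MonoidAlgebra k ((inT N V') ⧸ N.subgroupOf (inT N V')))) := by
        rw [h7, ssDim_eq]
        ring
    _ ≤ Fintype.card (G ⧸ inT N V') ^ 2 *
          ssA k (Matrix ι ι (MonoidAlgebra k ((inT N V') ⧸ N.subgroupOf (inT N V')))) :=
        Nat.mul_le_mul_left _ h5
    _ ≤ ssDim k G := h4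
-- END pp_step

end cli

-- BEGIN ten_pow
private theorem ten_pow_upd {k : Type} [Field k] {n m : ℕ} (M : Fin m → Matrix (Fin n) (Fin n) k)
    (i₀ : Fin m) (A : Matrix (Fin n) (Fin n) k) (f h : Fin m → Fin n) :
    ∏ i, (Function.update M i₀ A) i (f i) (h i) =
      A (f i₀) (h i₀) * ∏ i ∈ Finset.univ.erase i₀, M i (f i) (h i) := by
  rw [← Finset.mul_prod_erase _ _ (Finset.mem_univ i₀), Function.update_self]
  congr 1
  refine Finset.prod_congr rfl fun i hi => ?_
  rw [Function.update_of_ne (Finset.ne_of_mem_erase hi)]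

private theorem ten_pow_span {k : Type} [Field k] {n m : ℕ} (R : Set (Matrix (Fin n) (Fin n) k))
    (hR : Submodule.span k R = ⊤) (W : Submodule k (Matrix (Fin m → Fin n) (Fin m → Fin n) k))
    (hW : ∀ M : Fin m → Matrix (Fin n) (Fin n) k, (∀ i, M i ∈ R) →
      (Matrix.of fun f h => ∏ i, M i (f i) (h i)) ∈ W) (s : Finset (Fin m)) :
    ∀ M : Fin m → Matrix (Fin n) (Fin n) k, (∀ i, i ∉ s → M i ∈ R) →
      (Matrix.of fun f h => ∏ i, M i (f i) (h i)) ∈ W := by
  classical
  induction s using Finset.induction_on with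
  | empty => exact fun M hM => hW M fun i => hM i (Finset.notMem_empty i)
  | insert i₀ s hi₀ ih =>
    intro M hM
    have h1 : ∀ A : Matrix (Fin n) (Fin n) k, A ∈ Submodule.span k R →
        (Matrix.of fun f h => ∏ i, (Function.update M i₀ A) i (f i) (h i)) ∈ W := by
      intro A hA
      induction hA using Submodule.span_induction with
      | mem A hA =>
        refine ih _ fun i hi => ?_
        by_cases h : i = i₀
        · subst h
          rw [Function.update_self]
          exact hA
        · rw [Function.update_of_ne h]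
          exact hM i fun h2 => by
            rcases Finset.mem_insert.1 h2 with h3 | h3
            · exact h h3
            · exact hi h3
      | zero =>
        have h2 : (Matrix.of fun (f h : Fin m → Fin n) => ∏ i, (Function.update M i₀ 0) i (f i) (h i)) =
            (0 : Matrix (Fin m → Fin n) (Fin m → Fin n) k) := by
          ext1 f h
          rw [Matrix.of_apply, ten_pow_upd, Matrix.zero_apply, zero_mul, Matrix.zero_apply]
        rw [h2]
        exact Submodule.zero_mem _
      | add A B _ _ hA hB =>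
        have h2 : (Matrix.of fun (f h : Fin m → Fin n) => ∏ i, (Function.update M i₀ (A + B)) i (f i) (h i)) =
            (Matrix.of fun f h => ∏ i, (Function.update M i₀ A) i (f i) (h i)) +
            (Matrix.of fun f h => ∏ i, (Function.update M i₀ B) i (f i) (h i)) := by
          ext1 f h
          rw [Matrix.add_apply, Matrix.of_apply, Matrix.of_apply, Matrix.of_apply, ten_pow_upd,
            ten_pow_upd, ten_pow_upd, Matrix.add_apply, add_mul]
        rw [h2]
        exact Submodule.add_mem _ hA hB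
      | smul r A _ hA =>
        have h2 : (Matrix.of fun (f h : Fin m → Fin n) => ∏ i, (Function.update M i₀ (r • A)) i (f i) (h i)) =
            r • (Matrix.of fun f h => ∏ i, (Function.update M i₀ A) i (f i) (h i)) := by
          ext1 f h
          rw [Matrix.smul_apply, Matrix.of_apply, Matrix.of_apply, ten_pow_upd,
            ten_pow_upd, Matrix.smul_apply, smul_mul_assoc]
        rw [h2]
        exact Submodule.smul_mem _ _ hA
    have h3 := h1 (M i₀) (by rw [hR]; trivial)
    rwa [Function.update_eq_self] at h3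

/-- PROOF. `V' s f h = ∏ i, V (s i) (f i) (h i)`. The span of the range contains all `∏ i, M i (f i) (h i)` with `M i` in the span of the range of `V` (multilinear), in
particular the matrix units. (Compare `Wnx.ten_span` in Wnx/Ten.lean, not on main.) -/
theorem ten_pow {k S : Type} [Field k] [Group S] {n m : ℕ} (V : S →* Matrix (Fin n) (Fin n) k)
    (hV : Submodule.span k (Set.range V) = ⊤) :
    ∃ V' : (Fin m → S) →* Matrix (Fin m → Fin n) (Fin m → Fin n) k,
      Submodule.span k (Set.range V') = ⊤ := by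
  classical
  let V' : (Fin m → S) →* Matrix (Fin m → Fin n) (Fin m → Fin n) k :=
    { toFun := fun s => Matrix.of fun f h => ∏ i, V (s i) (f i) (h i)
      map_one' := by
        ext1 f h
        rw [Matrix.of_apply, Matrix.one_apply]
        by_cases hfh : f = h
        · subst hfh
          rw [if_pos rfl]
          refine Finset.prod_eq_one fun i _ => ?_
          rw [Pi.one_apply, map_one, Matrix.one_apply_eq]
        · rw [if_neg hfh]
          obtain ⟨i, hi⟩ := Function.ne_iff.1 hfh
          refine Finset.prod_eq_zero (Finset.mem_univ i) ?_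
          rw [Pi.one_apply, map_one, Matrix.one_apply_ne hi]
      map_mul' := by
        intro s t
        ext1 f h
        rw [Matrix.of_apply, Matrix.mul_apply]
        have h1 : ∀ i, V ((s * t) i) (f i) (h i) = ∑ l, V (s i) (f i) l * V (t i) l (h i) := by
          intro i
          rw [Pi.mul_apply, map_mul, Matrix.mul_apply]
        rw [Finset.prod_congr rfl fun i _ => h1 i, Finset.prod_univ_sum, Fintype.piFinset_univ]
        refine Finset.sum_congr rfl fun g _ => ?_
        rw [Matrix.of_apply, Matrix.of_apply, ← Finset.prod_mul_distrib] }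
  refine ⟨V', ?_⟩
  have h1 := ten_pow_span (Set.range V) hV (Submodule.span k (Set.range V')) (fun M hM => by
    choose s hs using hM
    refine Submodule.subset_span ⟨s, ?_⟩
    change (Matrix.of fun (f h : Fin m → Fin n) => ∏ i, V (s i) (f i) (h i)) = _
    simp only [hs]) Finset.univ
  rw [eq_top_iff]
  intro Z _
  rw [Matrix.matrix_eq_sum_single Z]
  refine Submodule.sum_mem _ fun f _ => Submodule.sum_mem _ fun h _ => ?_
  have h2 := h1 (fun i => Matrix.single (f i) (h i) 1) (fun i hi => absurd (Finset.mem_univ i) hi)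
  have h3 : (Matrix.of fun (f' h' : Fin m → Fin n) => ∏ i, (Matrix.single (f i) (h i) (1 : k)) (f' i) (h' i)) =
      Matrix.single f h 1 := by
    ext1 f' h'
    rw [Matrix.of_apply, Matrix.single_apply]
    by_cases hfh : f = f' ∧ h = h'
    · rw [if_pos hfh]
      refine Finset.prod_eq_one fun i _ => ?_
      rw [hfh.1, hfh.2, Matrix.single_apply_same]
    · rw [if_neg hfh]
      have h4 : ∃ i, ¬ (f i = f' i ∧ h i = h' i) := by
        by_contra hcon
        push Not at hcon
        exact hfh ⟨funext fun i => (hcon i).1, funext fun i => (hcon i).2⟩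
      obtain ⟨i, hi⟩ := h4
      exact Finset.prod_eq_zero (Finset.mem_univ i) (Matrix.single_apply_of_ne _ _ _ _ _ hi)
  rw [h3] at h2
  have h5 : Matrix.single f h (Z f h) = Z f h • Matrix.single f h (1 : k) := by
    rw [Matrix.smul_single, smul_eq_mul, mul_one]
  rw [h5]
  exact Submodule.smul_mem _ _ h2
-- END ten_pow

-- BEGIN pp_pow
/-- PROOF. `ten_pow` composed with `e`, `pp_step` with `ι = Fin m → Fin n`, `card = n ^ m = p ^ (a * m)`. -/
theorem pp_pow {p : ℕ} [Fact p.Prime] {a m n : ℕ} {k S G : Type} [Field k] [CharP k p]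
    [PerfectField k] [Group S] [Group G] [Finite G] (V : S →* Matrix (Fin n) (Fin n) k) (hn : n = p ^ a)
    (hV : Submodule.span k (Set.range V) = ⊤) (M : Subgroup G) [M.Normal]
    (e : M ≃* (Fin m → S)) :
    (n ^ 2) ^ m * ssDim k (G ⧸ M) ≤ ssDim k G := by
  obtain ⟨V', hV'⟩ := ten_pow (m := m) V hV
  have h1 : Set.range (V'.comp e.toMonoidHom) = Set.range V' := by
    ext x
    constructor
    · rintro ⟨y, rfl⟩
      exact ⟨e y, rfl⟩
    · rintro ⟨y, rfl⟩
      exact ⟨e.symm y, by simp⟩
  have h2 : Fintype.card (Fin m → Fin n) = n ^ m := by simp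
  have h3 := pp_step (p := p) (a := a * m) M (V'.comp e.toMonoidHom)
    (by rw [h2, hn, pow_mul]) (by rw [h1]; exact hV')
  rw [h2] at h3
  rw [← pow_mul, mul_comm 2 m, pow_mul]
  exact h3
-- END pp_pow

end Pool.Agent.Wpp
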