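import Pool.Agent.Wnx.Ser

set_option autoImplicit false

/-! Subnormal series with simple factors (general form of Wnx/Ser). -/

namespace Pool.Agent.Wpp

open Equiv

/-- `1 = H 0 ⊲ H 1 ⊲ ... ⊲ H r = G`, and the factor `H (i+1) / H i` is isomorphic to the group `S i` for all
`i ∈ I`. -/
def Ser {G : Type} [Group G] (r : ℕ) (H : ℕ → Subgroup G) (I : Finset ℕ) (S : ℕ → Type)
    [∀ i, Group (S i)] : Prop :=
  H 0 = ⊥ ∧ H r = ⊤ ∧
  (∀ i < r, H i ≤ H (i + 1) ∧ ((H i).subgroupOf (H (i + 1))).Normal) ∧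
  ∀ i ∈ I, i < r ∧ ∃ f : H (i + 1) →* S i,
    Function.Surjective f ∧ f.ker = (H i).subgroupOf (H (i + 1))

/-- PROOF. Images of the series under `QuotientGroup.mk' N`. For `i ∈ I` with `H (i+1) ⊓ N ≤ H i`: the restriction `g : H (i+1) → (H (i+1)).map (mk' N)` is onto with kernel
`H (i+1) ⊓ N ≤ ker f`, so `f = f' ∘ g` (`MonoidHom.liftOfSurjective` or `QuotientGroup.lift`), `f'` is onto, its kernel is `g (ker f)`, the image of `H i`. Normality of the image of
`H i` in the image of `H (i+1)`: pointwise. -/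
theorem ser_quot {G : Type} [Group G] {r : ℕ} {H : ℕ → Subgroup G} {I : Finset ℕ} {S : ℕ → Type} [∀ i, Group (S i)]
    (h : Ser r H I S) (N : Subgroup G) [N.Normal] (I' : Finset ℕ)
    (hI' : ∀ i ∈ I', i ∈ I ∧ H (i + 1) ⊓ N ≤ H i) :
    Ser r (fun i => (H i).map (QuotientGroup.mk' N)) I' S := by
  obtain ⟨hbot, htop, hstep, hI⟩ := h
  refine ⟨?_, ?_, fun i hi => ⟨?_, ?_⟩, fun i hi => ?_⟩
  · show (H 0).map (QuotientGroup.mk' N) = ⊥
    rw [hbot, Subgroup.map_bot]
  · show (H r).map (QuotientGroup.mk' N) = ⊤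
    rw [htop]
    exact Subgroup.map_top_of_surjective _ (QuotientGroup.mk'_surjective N)
  · exact Subgroup.map_mono (hstep i hi).1
  · constructor
    rintro ⟨n, hn⟩ hn1 ⟨g, hg⟩
    obtain ⟨x, hx, rfl⟩ := hn1
    obtain ⟨y, hy, rfl⟩ := hg
    have hx' : x ∈ H i := hx
    have h1 := (hstep i hi).2.conj_mem ⟨x, (hstep i hi).1 hx'⟩ hx' ⟨y, hy⟩
    refine ⟨y * x * y⁻¹, h1, ?_⟩
    rw [map_mul, map_mul, map_inv]
    rfl
  · obtain ⟨hiI, hle⟩ := hI' i hi
    obtain ⟨hir, f, hf, hker⟩ := hI i hiI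
    refine ⟨hir, ?_⟩
    have hg := MonoidHom.subgroupMap_surjective (QuotientGroup.mk' N) (H (i + 1))
    have hgv : ∀ x : H (i + 1), (((QuotientGroup.mk' N).subgroupMap (H (i + 1)) x :
        (H (i + 1)).map (QuotientGroup.mk' N)) : G ⧸ N) = QuotientGroup.mk' N (x : G) := fun x => rfl
    have hkk : ((QuotientGroup.mk' N).subgroupMap (H (i + 1))).ker ≤ f.ker := by
      intro x hx
      rw [hker]
      have h1 : QuotientGroup.mk' N (x : G) = 1 := by
        rw [← hgv x, (MonoidHom.mem_ker).1 hx]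
        rfl
      have h2 : (x : G) ∈ N := (QuotientGroup.eq_one_iff (x : G)).1 h1
      exact hle ⟨x.2, h2⟩
    have hlift : ∀ x : H (i + 1), (((QuotientGroup.mk' N).subgroupMap (H (i + 1))).liftOfRightInverse
        (Function.surjInv hg) (Function.rightInverse_surjInv hg) ⟨f, hkk⟩)
        ((QuotientGroup.mk' N).subgroupMap (H (i + 1)) x) = f x := fun x =>
      MonoidHom.liftOfRightInverse_comp_apply _ _ (Function.rightInverse_surjInv hg) ⟨f, hkk⟩ x
    refine ⟨((QuotientGroup.mk' N).subgroupMap (H (i + 1))).liftOfRightInverse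
        (Function.surjInv hg) (Function.rightInverse_surjInv hg) ⟨f, hkk⟩, fun y => ?_, ?_⟩
    · obtain ⟨x, hx⟩ := hf y
      exact ⟨_, (hlift x).trans hx⟩
    · ext y
      obtain ⟨x, rfl⟩ := hg y
      rw [MonoidHom.mem_ker, hlift x]
      constructor
      · intro h1
        have h2 : x ∈ f.ker := h1
        rw [hker] at h2
        exact ⟨x, h2, rfl⟩
      · rintro ⟨z, hz, hzx⟩
        have hz' : z ∈ H i := hz
        have h3 : (QuotientGroup.mk' N).subgroupMap (H (i + 1)) ⟨z, (hstep i hir).1 hz'⟩ =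
            (QuotientGroup.mk' N).subgroupMap (H (i + 1)) x := Subtype.ext hzx
        have h4 := hlift ⟨z, (hstep i hir).1 hz'⟩
        rw [h3, hlift x] at h4
        rw [h4]
        have h5 : (⟨z, (hstep i hir).1 hz'⟩ : H (i + 1)) ∈ f.ker := by
          rw [hker]
          exact hz'
        exact h5

/-- PROOF. The image of `H (i+1) ⊓ N` under `f` is normal in the simple group `A_(d i)` (`alternatingGroup.isSimpleGroup`) and not trivial (an element of `H (i+1) ⊓ N` outside of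
`H i` is not in the kernel). -/
theorem res_surj {G : Type} [Group G] (A B N : Subgroup G) [N.Normal] {S : Type} [Group S]
    (hs : IsSimpleGroup S) (f : B →* S) (hf : Function.Surjective f) (hk : f.ker = A.subgroupOf B)
    (hN : ¬ B ⊓ N ≤ A) (y : S) : ∃ x : B, (x : G) ∈ N ∧ f x = y := by
  have hnorm : ((N.subgroupOf B).map f).Normal := Subgroup.Normal.map inferInstance f hf
  rcases hnorm.eq_bot_or_eq_top with h | h
  · exfalso
    apply hN
    rintro x ⟨hxB, hxN⟩
    have h1 : f ⟨x, hxB⟩ ∈ (N.subgroupOf B).map f := Subgroup.mem_map_of_mem f (Subgroup.mem_subgroupOf.2 hxN)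
    rw [h, Subgroup.mem_bot] at h1
    have h2 : (⟨x, hxB⟩ : B) ∈ f.ker := h1
    rw [hk, Subgroup.mem_subgroupOf] at h2
    exact h2
  · have h1 : y ∈ (N.subgroupOf B).map f := by rw [h]; exact Subgroup.mem_top y
    obtain ⟨x, hx, hxy⟩ := h1
    exact ⟨x, Subgroup.mem_subgroupOf.1 hx, hxy⟩

/-- PROOF. Induction on `r`-like statement: for all `l ≤ r`, `∏ i ∈ I'.filter (· < l), card A_(d i) ≤ card (H l ⊓ N)`: for `l ∈ I'` the map `H (l+1) ⊓ N → A_(d l)` is onto
(`res_surj`) with kernel `H l ⊓ N`, so `card (H (l+1) ⊓ N) = card A_(d l) * card (H l ⊓ N)`; for `l ∉ I'` use `H l ≤ H (l+1)`. At `l = r`: `H r ⊓ N = N`. -/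
theorem count {G : Type} [Group G] [Finite G] {r : ℕ} {H : ℕ → Subgroup G} {I : Finset ℕ}
    {S : ℕ → Type} [∀ i, Group (S i)] (h : Ser r H I S) (N : Subgroup G) [N.Normal] (I' : Finset ℕ)
    (hI' : ∀ i ∈ I', i ∈ I ∧ IsSimpleGroup (S i) ∧ ¬ H (i + 1) ⊓ N ≤ H i) :
    ∏ i ∈ I', Nat.card (S i) ≤ Nat.card N := by
  obtain ⟨-, hr, hmono, hfac⟩ := h
  have key : ∀ l : ℕ, l ≤ r → ∏ i ∈ I'.filter (fun i => i < l), Nat.card (S i) ≤
      Nat.card (H l ⊓ N : Subgroup G) := by
    intro l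
    induction l with
    | zero =>
      intro _
      have h0 : I'.filter (fun i => i < 0) = ∅ := Finset.filter_eq_empty_iff.2 fun i _ => Nat.not_lt_zero i
      rw [h0, Finset.prod_empty]
      exact Nat.card_pos
    | succ l ih =>
      intro hl
      have ih' := ih (by omega)
      have hle : H l ⊓ N ≤ H (l + 1) ⊓ N := inf_le_inf_right N (hmono l (by omega)).1
      by_cases hlI : l ∈ I'
      · have h1 : I'.filter (fun i => i < l + 1) = insert l (I'.filter (fun i => i < l)) := by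
          ext i
          simp only [Finset.mem_filter, Finset.mem_insert]
          constructor
          · rintro ⟨h1, h2⟩
            rcases Nat.lt_succ_iff_lt_or_eq.1 h2 with h3 | h3
            · exact Or.inr ⟨h1, h3⟩
            · exact Or.inl h3
          · rintro (h1 | ⟨h1, h2⟩)
            · rw [h1]; exact ⟨hlI, by omega⟩
            · exact ⟨h1, by omega⟩
        have h2 : l ∉ I'.filter (fun i => i < l) := by simp
        rw [h1, Finset.prod_insert h2]
        obtain ⟨hlI2, hd, hn⟩ := hI' l hlI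
        obtain ⟨-, f, hf, hk⟩ := hfac l hlI2
        let g : (H (l + 1) ⊓ N : Subgroup G) →* S l :=
          f.comp (Subgroup.inclusion inf_le_left)
        have hg : Function.Surjective g := by
          intro y
          obtain ⟨x, hxN, hx⟩ := res_surj (H l) (H (l + 1)) N hd f hf hk hn y
          exact ⟨⟨x, x.2, hxN⟩, hx⟩
        have hc : Nat.card (H (l + 1) ⊓ N : Subgroup G) = Nat.card (S l) * Nat.card g.ker := by
          rw [Subgroup.card_eq_card_quotient_mul_card_subgroup g.ker,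
            Nat.card_congr (QuotientGroup.quotientKerEquivOfSurjective g hg).toEquiv]
        have hker : Nat.card (H l ⊓ N : Subgroup G) ≤ Nat.card g.ker := by
          have hmem : ∀ x : (H l ⊓ N : Subgroup G), g ⟨x, hle x.2⟩ = 1 := by
            intro x
            have h3 : (⟨x, (hle x.2).1⟩ : H (l + 1)) ∈ f.ker := by
              rw [hk, Subgroup.mem_subgroupOf]
              exact x.2.1
            exact h3
          exact Nat.card_le_card_of_injective
            (fun x : (H l ⊓ N : Subgroup G) => (⟨⟨x, hle x.2⟩, hmem x⟩ : g.ker))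
            (fun x y hxy => by
              have h4 := congrArg (fun z : g.ker => ((z : (H (l + 1) ⊓ N : Subgroup G)) : G)) hxy
              exact Subtype.ext h4)
        rw [hc]
        exact Nat.mul_le_mul_left _ (ih'.trans hker)
      · have h1 : I'.filter (fun i => i < l + 1) = I'.filter (fun i => i < l) := by
          apply Finset.filter_congr
          intro i hi
          have : i ≠ l := fun h => hlI (h ▸ hi)
          omega
        rw [h1]
        exact ih'.trans (Nat.card_le_card_of_injective (Subgroup.inclusion hle) (Subgroup.inclusion_injective hle))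
  have hfin := key r le_rfl
  have h1 : I'.filter (fun i => i < r) = I' := Finset.filter_true_of_mem fun i hi => (hfac i (hI' i hi).1).1
  rw [h1, hr, top_inf_eq] at hfin
  exact hfin

/-- PROOF. Downward induction on `l` (from `r` to `0`): the set `q '' (H l ⊓ M)` is `{1}` or everything. `l = r`: `q` is onto. Step: `H l ⊓ M` is normalized by `H (l+1) ⊓ M`, so if the image of
the latter is `T`, the image of the former is a normal subgroup of `T`, `⊥` or `⊤` (`IsSimpleGroup.eq_bot_or_eq_top_of_normal`); if it is `{1}`, so is the former. -/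
theorem subn_image {G : Type} [Group G] {r : ℕ} {H : ℕ → Subgroup G} {I : Finset ℕ} {S : ℕ → Type} [∀ i, Group (S i)]
    (h : Ser r H I S) (M : Subgroup G) {T : Type} [Group T] [IsSimpleGroup T] (q : M →* T)
    (hq : Function.Surjective q) (l : ℕ) (hl : l ≤ r) :
    (∀ x : M, (x : G) ∈ H l → q x = 1) ∨ ∀ y : T, ∃ x : M, (x : G) ∈ H l ∧ q x = y := by
  obtain ⟨-, htop, hstep, -⟩ := h
  have key : ∀ k : ℕ, k ≤ r → ((∀ x : M, (x : G) ∈ H (r - k) → q x = 1) ∨
      ∀ y : T, ∃ x : M, (x : G) ∈ H (r - k) ∧ q x = y) := by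
    intro k
    induction k with
    | zero =>
      intro _
      right
      intro y
      obtain ⟨x, hx⟩ := hq y
      refine ⟨x, ?_, hx⟩
      rw [Nat.sub_zero, htop]
      exact Subgroup.mem_top _
    | succ k ih =>
      intro hk
      have e : r - k = (r - (k + 1)) + 1 := by omega
      have ih' := ih (by omega)
      rw [e] at ih'
      obtain ⟨hle, hnor⟩ := hstep (r - (k + 1)) (by omega)
      rcases ih' with h1 | h1
      · left
        intro x hx
        exact h1 x (hle hx)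
      · have hnorm : (((H (r - (k + 1))).subgroupOf M).map q).Normal := by
          constructor
          rintro z ⟨w, hw, rfl⟩ y
          obtain ⟨x, hx, rfl⟩ := h1 y
          refine ⟨x * w * x⁻¹, ?_, by rw [map_mul, map_mul, map_inv]⟩
          have hw' : (w : G) ∈ H (r - (k + 1)) := hw
          have h2 := hnor.conj_mem ⟨w, hle hw'⟩ hw' ⟨x, hx⟩
          exact h2
        rcases hnorm.eq_bot_or_eq_top with h2 | h2
        · left
          intro x hx
          have h3 : q x ∈ ((H (r - (k + 1))).subgroupOf M).map q := ⟨x, hx, rfl⟩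
          rw [h2, Subgroup.mem_bot] at h3
          exact h3
        · right
          intro y
          have h3 : y ∈ ((H (r - (k + 1))).subgroupOf M).map q := by rw [h2]; exact Subgroup.mem_top y
          obtain ⟨x, hx, hxy⟩ := h3
          exact ⟨x, hx, hxy⟩
  have h1 := key (r - l) (by omega)
  rwa [show r - (r - l) = l by omega] at h1

/-- the elements of `N` whose coordinates from the `j`-th on are `1` -/
private def jh_N {G : Type} [Group G] (N : Subgroup G) {T : Type} [Group T] {m : ℕ} (e : N ≃* (Fin m → T)) (j : ℕ) :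
    Subgroup G where
  carrier := {x | ∃ hx : x ∈ N, ∀ l : Fin m, j ≤ l.val → e ⟨x, hx⟩ l = 1}
  mul_mem' := by
    rintro a b ⟨ha, ha'⟩ ⟨hb, hb'⟩
    refine ⟨N.mul_mem ha hb, fun l hl => ?_⟩
    have h1 : (⟨a * b, N.mul_mem ha hb⟩ : N) = ⟨a, ha⟩ * ⟨b, hb⟩ := rfl
    rw [h1, map_mul, Pi.mul_apply, ha' l hl, hb' l hl, one_mul]
  one_mem' := by
    refine ⟨N.one_mem, fun l _ => ?_⟩
    have h1 : (⟨1, N.one_mem⟩ : N) = 1 := rfl
    rw [h1, map_one, Pi.one_apply]
  inv_mem' := by
    rintro a ⟨ha, ha'⟩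
    refine ⟨N.inv_mem ha, fun l hl => ?_⟩
    have h1 : (⟨a⁻¹, N.inv_mem ha⟩ : N) = (⟨a, ha⟩ : N)⁻¹ := rfl
    rw [h1, map_inv, Pi.inv_apply, ha' l hl, inv_one]

private theorem jh_conj {G : Type} [Group G] (N : Subgroup G) {T : Type} [Group T] {m : ℕ} (e : N ≃* (Fin m → T)) (j : ℕ)
    {x y : G} (hx : x ∈ jh_N N e j) (hy : y ∈ N) : y * x * y⁻¹ ∈ jh_N N e j := by
  obtain ⟨hx1, hx2⟩ := hx
  refine ⟨N.mul_mem (N.mul_mem hy hx1) (N.inv_mem hy), fun l hl => ?_⟩
  have h1 : (⟨y * x * y⁻¹, N.mul_mem (N.mul_mem hy hx1) (N.inv_mem hy)⟩ : N) = ⟨y, hy⟩ * ⟨x, hx1⟩ * (⟨y, hy⟩ : N)⁻¹ := rfl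
  rw [h1, map_mul, map_mul, map_inv, Pi.mul_apply, Pi.mul_apply, Pi.inv_apply, hx2 l hl, mul_one, mul_inv_cancel]

/-- PROOF. `f : H (i+1) → S = A_(d i)`, onto, kernel `H i`; `S` is simple. For `j ≤ m` let `N_j` = the subgroup of `G` of all `x ∈ N` with `e x l = 1` for all `l ≥ j` (as `Fin m`); it is
normalized by `N`. The subgroup `f (H (i+1) ⊓ N_j)` of `S` is normalized by `f (H (i+1) ⊓ N) = S` (`res_surj`), so it is `⊥` or `⊤`; it is `⊥` for `j = 0`, `⊤` for `j = m` (`res_surj`): there is `j < m`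
with `⊥` at `j`, `⊤` at `j + 1`. `q : N_(j+1) → T`, `x ↦ e x j` is onto with kernel `N_j`. By `subn_image` (with `M = N_(j+1)`, `l = i + 1`) `q` maps
`H (i+1) ⊓ N_(j+1)` to `{1}` or onto `T`; not to `{1}`, because then `H (i+1) ⊓ N_(j+1) = H (i+1) ⊓ N_j`. So there is a homomorphism `T → S`,
`q x ↦ f x` (well defined: `f = 1` on `H (i+1) ⊓ N_j`), onto; `T` is simple and `S ≠ 1`, so it is injective. -/
theorem jh {G : Type} [Group G] [Finite G] {r : ℕ} {H : ℕ → Subgroup G} {I : Finset ℕ} {S : ℕ → Type} [∀ i, Group (S i)]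
    (h : Ser r H I S) (N : Subgroup G) [N.Normal] {T : Type} [Group T] [IsSimpleGroup T] {m : ℕ}
    (e : N ≃* (Fin m → T)) (i : ℕ) (hi : i ∈ I) (hd : IsSimpleGroup (S i)) (hN : ¬ H (i + 1) ⊓ N ≤ H i) :
    Nonempty (T ≃* S i) := by
  obtain ⟨hir, f, hf, hk⟩ := h.2.2.2 i hi
  have h0 : ∀ x : H (i + 1), (x : G) ∈ jh_N N e 0 → f x = 1 := by
    rintro x ⟨hx1, hx2⟩
    have h1 : e ⟨x, hx1⟩ = 1 := funext fun l => hx2 l (Nat.zero_le _)
    have h2 : (⟨x, hx1⟩ : N) = 1 := e.injective (h1.trans (map_one e).symm)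
    have h3 : (x : G) = 1 := congrArg Subtype.val h2
    have h4 : x = 1 := Subtype.ext h3
    rw [h4, map_one]
  have hm : ¬ ∀ x : H (i + 1), (x : G) ∈ jh_N N e m → f x = 1 := by
    intro hall
    apply hN
    rintro x ⟨hx1, hx2⟩
    have h1 : (⟨x, hx1⟩ : H (i + 1)) ∈ f.ker := hall ⟨x, hx1⟩ ⟨hx2, fun l hl => absurd l.2 (by omega)⟩
    rw [hk, Subgroup.mem_subgroupOf] at h1
    exact h1
  obtain ⟨j, hjm, hj1, hj2⟩ : ∃ j < m, (∀ x : H (i + 1), (x : G) ∈ jh_N N e j → f x = 1) ∧
      ¬ ∀ x : H (i + 1), (x : G) ∈ jh_N N e (j + 1) → f x = 1 := by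
    by_contra hcon
    push Not at hcon
    apply hm
    have : ∀ j ≤ m, ∀ x : H (i + 1), (x : G) ∈ jh_N N e j → f x = 1 := by
      intro j
      induction j with
      | zero => intro _; exact h0
      | succ j ih => intro hj; exact hcon j (by omega) (ih (by omega))
    exact this m le_rfl
  -- the image of `H (i+1) ⊓ N_(j+1)` is everything
  let W : Subgroup G := H (i + 1) ⊓ jh_N N e (j + 1)
  let fW : W →* S i := f.comp (Subgroup.inclusion inf_le_left)
  have hnorm : fW.range.Normal := by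
    refine ⟨?_⟩
    rintro _ ⟨x, rfl⟩ s
    obtain ⟨y, hyN, rfl⟩ := res_surj (H i) (H (i + 1)) N hd f hf hk hN s
    have hx1 : (y : G) * (x : G) * (y : G)⁻¹ ∈ H (i + 1) :=
      (H (i + 1)).mul_mem ((H (i + 1)).mul_mem y.2 x.2.1) ((H (i + 1)).inv_mem y.2)
    have hx2 := jh_conj N e (j + 1) x.2.2 hyN
    refine ⟨⟨_, hx1, hx2⟩, ?_⟩
    change f ⟨(y : G) * (x : G) * (y : G)⁻¹, hx1⟩ = f y * f ⟨x, x.2.1⟩ * (f y)⁻¹
    rw [← map_mul, ← map_inv, ← map_mul]
    rfl
  have hsurj : Function.Surjective fW := by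
    rw [← MonoidHom.range_eq_top]
    rcases hnorm.eq_bot_or_eq_top with h1 | h1
    · exfalso
      apply hj2
      intro x hx
      have h2 : fW ⟨x, x.2, hx⟩ ∈ fW.range := ⟨_, rfl⟩
      rw [h1, Subgroup.mem_bot] at h2
      exact h2
    · exact h1
  -- the coordinate
  let q : jh_N N e (j + 1) →* T :=
    { toFun := fun x => e ⟨x, x.2.choose⟩ ⟨j, hjm⟩
      map_one' := by
        have h1 : (⟨((1 : jh_N N e (j + 1)) : G), (1 : jh_N N e (j + 1)).2.choose⟩ : N) = 1 := rfl
        rw [h1, map_one, Pi.one_apply]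
      map_mul' := by
        intro x y
        have h1 : (⟨((x * y : jh_N N e (j + 1)) : G), (x * y).2.choose⟩ : N) =
            ⟨x, x.2.choose⟩ * ⟨y, y.2.choose⟩ := rfl
        rw [h1, map_mul, Pi.mul_apply] }
  have hq : Function.Surjective q := by
    intro t
    have h1 : ((e.symm (Pi.mulSingle ⟨j, hjm⟩ t) : N) : G) ∈ jh_N N e (j + 1) := by
      refine ⟨(e.symm (Pi.mulSingle ⟨j, hjm⟩ t)).2, fun l hl => ?_⟩
      have h2 : (⟨((e.symm (Pi.mulSingle ⟨j, hjm⟩ t) : N) : G), (e.symm (Pi.mulSingle ⟨j, hjm⟩ t)).2⟩ : N) =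
        e.symm (Pi.mulSingle ⟨j, hjm⟩ t) := rfl
      rw [h2, MulEquiv.apply_symm_apply, Pi.mulSingle_eq_of_ne]
      intro h3
      rw [h3] at hl
      exact absurd hl (by simp)
    refine ⟨⟨_, h1⟩, ?_⟩
    change e (e.symm (Pi.mulSingle ⟨j, hjm⟩ t)) ⟨j, hjm⟩ = t
    rw [MulEquiv.apply_symm_apply, Pi.mulSingle_eq_same]
  have hkey : ∀ x : jh_N N e (j + 1), q x = 1 → (x : G) ∈ jh_N N e j := by
    rintro ⟨x, hx1, hx2⟩ hqx
    refine ⟨hx1, fun l hl => ?_⟩
    rcases Nat.lt_or_ge j l.val with h1 | h1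
    · exact hx2 l h1
    · have h2 : l = ⟨j, hjm⟩ := Fin.ext (le_antisymm h1 hl)
      rw [h2]
      exact hqx
  rcases subn_image h (jh_N N e (j + 1)) q hq (i + 1) (by omega) with hsub | hsub
  · exfalso
    apply hj2
    intro x hx
    exact hj1 x (hkey ⟨x, hx⟩ (hsub ⟨x, hx⟩ x.2))
  · let qW : W →* T := q.comp (Subgroup.inclusion inf_le_right)
    have hqW : Function.Surjective qW := by
      intro t
      obtain ⟨x, hx1, hx2⟩ := hsub t
      exact ⟨⟨x, hx1, x.2⟩, hx2⟩
    have hker : qW.ker ≤ fW.ker := by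
      intro x hx
      exact hj1 ⟨x, x.2.1⟩ (hkey ⟨x, x.2.2⟩ hx)
    let φ : T →* S i := qW.liftOfSurjective hqW ⟨fW, hker⟩
    have hφ : ∀ x : W, φ (qW x) = fW x := fun x =>
      MonoidHom.liftOfRightInverse_comp_apply qW (Function.surjInv hqW) (Function.rightInverse_surjInv hqW) ⟨fW, hker⟩ x
    have hφs : Function.Surjective φ := by
      intro s
      obtain ⟨x, hx⟩ := hsurj s
      exact ⟨qW x, (hφ x).trans hx⟩
    have hφi : Function.Injective φ := by
      rw [← MonoidHom.ker_eq_bot_iff]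
      rcases (MonoidHom.normal_ker φ).eq_bot_or_eq_top with h1 | h1
      · exact h1
      · exfalso
        obtain ⟨s, hs⟩ := exists_ne (1 : S i)
        obtain ⟨t, ht⟩ := hφs s
        have h2 : t ∈ φ.ker := by rw [h1]; exact Subgroup.mem_top t
        exact hs (ht.symm.trans h2)
    exact ⟨MulEquiv.ofBijective φ ⟨hφi, hφs⟩⟩

end Pool.Agent.Wpp
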