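import Pool.Agent.Wil.Rel
import Pool.Agent.Wnx.Fac
import Pool.Agent.Wpp.Ser

set_option autoImplicit false

/-! The series theorem for general simple factors. -/

namespace Pool.Agent.Wpp

open Pool.Agent.Wil MonoidAlgebra

/-- The multiplicative step for powers of `S` as normal subgroups, with the factor `w`. -/
def Step (k : Type) [Field k] (S : Type) [Group S] (w : ℝ) : Prop :=
  ∀ (m : ℕ) (G : Type) [Group G] [Finite G] (M : Subgroup G) [M.Normal],
    Nonempty (M ≃* (Fin m → S)) → w ^ m * (ssDim k (G ⧸ M) : ℝ) ≤ ssDim k G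

/-- `1 = H 0 ⊲ H 1 ⊲ ... ⊲ H r = N`, and the factor `H (i+1) / H i` is isomorphic to the group `S i` for all
`i ∈ I`. -/
def SerN {G : Type} [Group G] (N : Subgroup G) (r : ℕ) (H : ℕ → Subgroup G) (I : Finset ℕ)
    (S : ℕ → Type) [∀ i, Group (S i)] : Prop :=
  H 0 = ⊥ ∧ H r = N ∧
  (∀ i < r, H i ≤ H (i + 1) ∧ ((H i).subgroupOf (H (i + 1))).Normal) ∧
  ∀ i ∈ I, i < r ∧ ∃ f : H (i + 1) →* S i,
    Function.Surjective f ∧ f.ker = (H i).subgroupOf (H (i + 1))

/-- the series continued by the group -/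
theorem SerN.ser {G : Type} [Group G] {N : Subgroup G} [N.Normal] {r : ℕ} {H : ℕ → Subgroup G}
    {I : Finset ℕ} {S : ℕ → Type} [∀ i, Group (S i)] (h : SerN N r H I S) (H' : ℕ → Subgroup G)
    (h1 : ∀ i ≤ r, H' i = H i) (h2 : H' (r + 1) = ⊤) : Ser (r + 1) H' I S := by
  obtain ⟨h0, hr, hn, hI⟩ := h
  refine ⟨?_, h2, ?_, ?_⟩
  · rw [h1 0 (Nat.zero_le r), h0]
  · intro i hi
    rcases Nat.lt_or_ge i r with h3 | h3
    · rw [h1 i h3.le, h1 (i + 1) (by omega)]
      exact hn i h3
    · have h4 : i = r := by omega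
      subst h4
      rw [h1 i le_rfl, h2, hr]
      exact ⟨le_top, inferInstance⟩
  · intro i hi
    obtain ⟨h3, f, hf, hk⟩ := hI i hi
    rw [h1 i h3.le, h1 (i + 1) (by omega)]
    exact ⟨by omega, f, hf, hk⟩

theorem SerN.of_ser {G : Type} [Group G] {N : Subgroup G} {r : ℕ} {H : ℕ → Subgroup G}
    {I : Finset ℕ} {S : ℕ → Type} [∀ i, Group (S i)] (h : Ser (r + 1) H I S) (hr : H r = N)
    (hI : ∀ i ∈ I, i < r) :
    SerN N r H I S :=
  ⟨h.1, hr, fun i hi => h.2.2.1 i (by omega), fun i hi => ⟨hI i hi, (h.2.2.2 i hi).2⟩⟩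

theorem series_gen (k : Type) [Field k] (S : ℕ → Type) [∀ i, Group (S i)] (w : ℕ → ℝ) (c : ℕ) :
    ∀ (G : Type) [Group G] [Finite G] (N : Subgroup G) [N.Normal], Nat.card N = c →
      ∀ (r : ℕ) (H : ℕ → Subgroup G) (I : Finset ℕ),
      SerN N r H I S → (∀ i ∈ I, IsSimpleGroup (S i)) → (∀ i ∈ I, 1 ≤ w i) →
      (∀ i ∈ I, Step k (S i) (w i)) →
      (∏ i ∈ I, w i) * ssDim k (G ⧸ N) ≤ ssDim k G := by
  classical
  induction c using Nat.strong_induction_on with
  | _ c IH =>
  intro G _ _ N hNn hc r H I hS hsim hw hst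
  by_cases hne : N = ⊥
  · -- the trivial group
    have hI : I = ∅ := by
      rw [Finset.eq_empty_iff_forall_notMem]
      intro i hi
      obtain ⟨hir, f, hf, _⟩ := hS.2.2.2 i hi
      have := hsim i hi
      obtain ⟨a, ha⟩ := exists_ne (1 : S i)
      obtain ⟨x, hx⟩ := hf a
      apply ha
      have hmono : ∀ j, j ≤ r → H j ≤ N := by
        intro j hj
        induction hj using Nat.decreasingInduction with
        | self => exact hS.2.1.le
        | of_succ j hj ih => exact (hS.2.2.1 j (by omega)).1.trans ih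
      have hx1 : x = 1 := by
        have h3 := hmono (i + 1) (by omega) x.2
        rw [hne, Subgroup.mem_bot] at h3
        exact Subtype.ext h3
      rw [← hx, hx1, map_one]
    rw [hI, Finset.prod_empty, one_mul]
    exact_mod_cast ssDim_le_of_surjective (QuotientGroup.mk' N) (QuotientGroup.mk'_surjective N)
  · obtain ⟨M, hM, hMN, hb, hmin⟩ := Wnx.exists_min N hne
    obtain ⟨T, _, _, m, ⟨e⟩⟩ := Wnx.min_struct M hb hmin
    obtain ⟨H', hH'1, hH'2⟩ : ∃ H' : ℕ → Subgroup G, (∀ i ≤ r, H' i = H i) ∧ H' (r + 1) = ⊤ :=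
      ⟨fun i => if i ≤ r then H i else ⊤, fun i hi => if_pos hi, if_neg (by omega)⟩
    have hSG := hS.ser H' hH'1 hH'2
    have hH'r : H' r = N := by rw [hH'1 r le_rfl]; exact hS.2.1
    have hir : ∀ i ∈ I, i < r := fun i hi => (hS.2.2.2 i hi).1
    have hN' : (N.map (QuotientGroup.mk' M)).Normal := QuotientGroup.map_normal M N
    have hcM : Nat.card (N.map (QuotientGroup.mk' M) : Subgroup (G ⧸ M)) * Nat.card M = c := by
      let φ : N →* G ⧸ M := (QuotientGroup.mk' M).comp N.subtype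
      have hker : φ.ker = M.subgroupOf N := by
        ext x
        rw [MonoidHom.mem_ker, Subgroup.mem_subgroupOf]
        exact QuotientGroup.eq_one_iff (x : G)
      have hran : φ.range = N.map (QuotientGroup.mk' M) := by
        rw [MonoidHom.range_comp, Subgroup.range_subtype]
      have e1 : Nat.card (N ⧸ φ.ker) = Nat.card (N.map (QuotientGroup.mk' M) : Subgroup (G ⧸ M)) := by
        rw [← hran]
        exact Nat.card_congr (QuotientGroup.quotientKerEquivRange φ).toEquiv
      have e2 : Nat.card φ.ker = Nat.card M := by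
        rw [hker]
        exact Nat.card_congr (Subgroup.subgroupOfEquivOfLe hMN).toEquiv
      rw [← hc, φ.ker.card_eq_card_quotient_mul_card_subgroup, e1, e2]
    have hlt : Nat.card (N.map (QuotientGroup.mk' M) : Subgroup (G ⧸ M)) < c := by
      have e1 : 1 < Nat.card M := by
        rw [Finite.one_lt_card_iff_nontrivial, Subgroup.nontrivial_iff_ne_bot]
        exact hb
      have e2 : 0 < Nat.card (N.map (QuotientGroup.mk' M) : Subgroup (G ⧸ M)) := Nat.card_pos
      nlinarith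
    have hSa := ser_quot hSG M (I.filter fun i => H' (i + 1) ⊓ M ≤ H' i) (fun i hi => by
      rw [Finset.mem_filter] at hi
      exact hi)
    have hSa' := SerN.of_ser (N := N.map (QuotientGroup.mk' M)) hSa (by
      simp only [hH'r]) (fun i hi => hir i (Finset.mem_filter.1 hi).1)
    have hIH := IH _ hlt (G ⧸ M) (N.map (QuotientGroup.mk' M)) rfl r _ _ hSa'
      (fun i hi => hsim i (Finset.mem_filter.1 hi).1) (fun i hi => hw i (Finset.mem_filter.1 hi).1)
      (fun i hi => hst i (Finset.mem_filter.1 hi).1)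
    rw [ssDim_congr (QuotientGroup.quotientQuotientEquivQuotient M N hMN)] at hIH
    have hsplit : ∏ i ∈ I, w i = (∏ i ∈ I.filter (fun i => H' (i + 1) ⊓ M ≤ H' i), w i) *
        ∏ i ∈ I.filter (fun i => ¬ H' (i + 1) ⊓ M ≤ H' i), w i :=
      (Finset.prod_filter_mul_prod_filter_not I _ _).symm
    have hquo : (ssDim k (G ⧸ M) : ℝ) ≤ ssDim k G := by
      exact_mod_cast ssDim_le_of_surjective (QuotientGroup.mk' M) (QuotientGroup.mk'_surjective M)
    set Ib := I.filter (fun i => ¬ H' (i + 1) ⊓ M ≤ H' i) with hIb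
    rcases Finset.eq_empty_or_nonempty Ib with hem | hne'
    · rw [hsplit, hem, Finset.prod_empty, mul_one]
      exact hIH.trans hquo
    · have hmem : ∀ i ∈ Ib, i ∈ I ∧ IsSimpleGroup (S i) ∧ ¬ H' (i + 1) ⊓ M ≤ H' i := by
        intro i hi
        rw [hIb, Finset.mem_filter] at hi
        exact ⟨hi.1, hsim i hi.1, hi.2⟩
      have hjh : ∀ i ∈ Ib, Nonempty (T ≃* S i) := fun i hi =>
        jh hSG M e i (hmem i hi).1 (hmem i hi).2.1 (hmem i hi).2.2
      obtain ⟨i0, hi0, hmax⟩ := Finset.exists_max_image Ib w hne'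
      obtain ⟨t0⟩ := hjh i0 hi0
      have e' : M ≃* (Fin m → S i0) := e.trans (MulEquiv.piCongrRight fun _ => t0)
      have hcnt := count hSG M Ib hmem
      have hcN : Nat.card M = Nat.card (S i0) ^ m := by
        rw [Nat.card_congr e'.toEquiv, Nat.card_fun, Nat.card_fin]
      have hpr : ∏ i ∈ Ib, Nat.card (S i) = Nat.card (S i0) ^ Ib.card := by
        rw [Finset.prod_congr rfl fun i hi => by
          obtain ⟨t⟩ := hjh i hi
          rw [← Nat.card_congr t.toEquiv, Nat.card_congr t0.toEquiv], Finset.prod_const]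
      have hfin : Finite (S i0) := by
        obtain ⟨-, f, hf, -⟩ := hSG.2.2.2 i0 (hmem i0 hi0).1
        exact Finite.of_surjective f hf
      have hA1 : 1 < Nat.card (S i0) := by
        have := (hmem i0 hi0).2.1
        exact Finite.one_lt_card
      rw [hpr, hcN] at hcnt
      have hle : Ib.card ≤ m := (Nat.pow_le_pow_iff_right hA1).1 hcnt
      have h3 : w i0 ^ m * (ssDim k (G ⧸ M) : ℝ) ≤ ssDim k G := hst i0 (hmem i0 hi0).1 m G M ⟨e'⟩
      have h4 : ∏ i ∈ Ib, w i ≤ w i0 ^ m := by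
        calc ∏ i ∈ Ib, w i ≤ ∏ _i ∈ Ib, w i0 :=
              Finset.prod_le_prod (fun i hi => zero_le_one.trans (hw i (hmem i hi).1)) hmax
          _ = w i0 ^ Ib.card := by rw [Finset.prod_const]
          _ ≤ w i0 ^ m := pow_le_pow_right₀ (hw i0 (hmem i0 hi0).1) hle
      rw [hsplit]
      have h5 : 0 ≤ ∏ i ∈ Ib, w i :=
        Finset.prod_nonneg fun i hi => zero_le_one.trans (hw i (hmem i hi).1)
      calc (∏ i ∈ I.filter (fun i => H' (i + 1) ⊓ M ≤ H' i), w i) * (∏ i ∈ Ib, w i) *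
            ssDim k (G ⧸ N)
          = ((∏ i ∈ I.filter (fun i => H' (i + 1) ⊓ M ≤ H' i), w i) * ssDim k (G ⧸ N)) *
            (∏ i ∈ Ib, w i) := by ring
        _ ≤ (ssDim k (G ⧸ M) : ℝ) * w i0 ^ m := mul_le_mul hIH h4 h5 (Nat.cast_nonneg _)
        _ = w i0 ^ m * ssDim k (G ⧸ M) := mul_comm _ _
        _ ≤ ssDim k G := h3

end Pool.Agent.Wpp
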