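import Pool.Agent.Wpp.Cli
import Pool.Agent.Wpp.Wr
import Pool.Agent.Wpp.Gen

set_option autoImplicit false

/-! The final theorem: large alternating factors and factors with a module of `p`-power dimension. -/

namespace Pool.Agent.Wpp

open Pool.Agent.Wil MonoidAlgebra Real

/-- `S` has an absolutely simple module over `k` of dimension `c` (a representation by `c × c` matrices, which span all
matrices), and `c` is a power of `p` or the representation is the restriction of a representation of the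
automorphism group to the inner automorphisms. -/
def Big (p : ℕ) (k S : Type) [Field k] [Group S] (c : ℕ) : Prop :=
  (∃ V : S →* Matrix (Fin c) (Fin c) k, (∃ a, c = p ^ a) ∧
    Submodule.span k (Set.range V) = ⊤) ∨
  ∃ W : MulAut S →* Matrix (Fin c) (Fin c) k, 0 < c ∧
    Submodule.span k (Set.range fun s : S => W (MulAut.conj s)) = ⊤

/-- `B / A` is isomorphic to a simple group `S` with `Big p k S c`. -/
def BigFactor (p : ℕ) (k : Type) [Field k] {G : Type} [Group G] (A B : Subgroup G) (c : ℕ) : Prop :=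
  ∃ (S : Type) (_ : Group S) (f : B →* S),
    IsSimpleGroup S ∧ Function.Surjective f ∧ f.ker = A.subgroupOf B ∧ Big p k S c

/-- `B / A` is isomorphic to the alternating group of degree `n`. -/
def AltFactor {G : Type} [Group G] (A B : Subgroup G) (n : ℕ) : Prop :=
  ∃ f : B →* alternatingGroup (Fin n), Function.Surjective f ∧ f.ker = A.subgroupOf B

/-- `1 = H 0 ⊲ H 1 ⊲ ... ⊲ H r = N`. -/
def IsSeries {G : Type} [Group G] (N : Subgroup G) (r : ℕ) (H : ℕ → Subgroup G) : Prop :=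
  H 0 = ⊥ ∧ H r = N ∧ ∀ i < r, H i ≤ H (i + 1) ∧ ((H i).subgroupOf (H (i + 1))).Normal

theorem step_alt (p : ℕ) [hpf : Fact p.Prime] :
    ∃ n₀ : ℕ, ∀ (k : Type) [Field k] [CharP k p] (n : ℕ), n₀ ≤ n →
      1 ≤ Wnx.aa p n ∧ Step k (alternatingGroup (Fin n)) (Wnx.aa p n) := by
  have hp : p.Prime := hpf.out
  obtain ⟨n₁, h1⟩ := one_step p
  obtain ⟨n₂, h2⟩ := Wnx.val1 hp
  refine ⟨max n₁ n₂, fun k _ _ n hn => ⟨?_, fun m G _ _ M _ he => ?_⟩⟩
  · rw [Wnx.aa]
    refine le_trans ?_ (h2 n ((le_max_right _ _).trans hn))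
    have e1 : (1 : ℝ) ≤ (pPrimePart p n.factorial : ℝ) := by
      exact_mod_cast pPrimePart_pos p (Nat.factorial_ne_zero n)
    have e2 : (1 : ℝ) ≤ exp ((n : ℝ) * log p / p) := by
      apply Real.one_le_exp
      have : 0 ≤ log (p : ℝ) := Real.log_natCast_nonneg p
      positivity
    nlinarith
  · exact h1 n ((le_max_left _ _).trans hn) m k G M he

theorem step_big {p : ℕ} [hpf : Fact p.Prime] {c : ℕ} {k S : Type} [Field k] [CharP k p]
    [PerfectField k] [Group S] [IsSimpleGroup S] (h : Big p k S c) :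
    1 ≤ c ∧ Step k S ((c : ℝ) ^ 2) := by
  have hp : p.Prime := hpf.out
  rcases h with ⟨V, ⟨a, ha⟩, hV⟩ | ⟨W, hc, hW⟩
  · refine ⟨by rw [ha]; exact Nat.one_le_pow _ _ hp.pos, fun m G _ _ M _ he => ?_⟩
    obtain ⟨e⟩ := he
    have h := pp_pow (p := p) (a := a) V ha hV M e
    exact_mod_cast h
  · refine ⟨hc, fun m G _ _ M _ he => ?_⟩
    obtain ⟨e⟩ := he
    by_cases hT : ∃ a b : S, a * b ≠ b * a
    · have h := ext_step hT W hW M e
      exact_mod_cast h
    · push Not at hT
      have h1 : ∀ s : S, MulAut.conj s = 1 := by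
        intro s
        ext x
        rw [MulAut.conj_apply, hT s x, mul_assoc, mul_inv_cancel, mul_one]
        rfl
      have h2 : (Set.range fun s : S => W (MulAut.conj s)) = {1} := by
        ext x
        constructor
        · rintro ⟨s, rfl⟩
          simp only [h1, map_one]
          rfl
        · rintro rfl
          exact ⟨1, by simp only [h1, map_one]⟩
      rw [h2] at hW
      have hc1 : c ≤ 1 := by
        by_contra hcon
        push Not at hcon
        have h3 : Matrix.single (⟨0, by omega⟩ : Fin c) (⟨1, hcon⟩ : Fin c) (1 : k) ∈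
            Submodule.span k {(1 : Matrix (Fin c) (Fin c) k)} := by rw [hW]; trivial
        obtain ⟨r, hr⟩ := Submodule.mem_span_singleton.1 h3
        have h4 := congrFun (congrFun hr ⟨0, by omega⟩) ⟨1, hcon⟩
        rw [Matrix.smul_apply, Matrix.one_apply_ne (by simp), smul_zero,
          Matrix.single_apply_same] at h4
        exact one_ne_zero h4.symm
      have hc2 : c = 1 := le_antisymm hc1 hc
      rw [hc2, Nat.cast_one, one_pow, one_pow, one_mul]
      exact_mod_cast ssDim_le_of_surjective (QuotientGroup.mk' M) (QuotientGroup.mk'_surjective M)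

theorem main (p : ℕ) [hpf : Fact p.Prime] :
    ∃ n₀ : ℕ, ∀ (k : Type) [Field k] [CharP k p] [PerfectField k] (G : Type) [Group G] [Finite G]
      (N : Subgroup G) [N.Normal] (r : ℕ) (H : ℕ → Subgroup G) (I J : Finset ℕ) (d c : ℕ → ℕ),
      IsSeries N r H → Disjoint I J →
      (∀ i ∈ I, i < r ∧ n₀ ≤ d i ∧ AltFactor (H i) (H (i + 1)) (d i)) →
      (∀ i ∈ J, i < r ∧ BigFactor p k (H i) (H (i + 1)) (c i)) →
      (∏ i ∈ I, ((d i).factorial : ℝ) * Real.exp (-(d i : ℝ) / (p : ℝ) ^ 3)) *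
          (∏ i ∈ J, (c i : ℝ)) ^ 2 * (ssDim k (G ⧸ N) : ℝ) ≤ (ssDim k G : ℝ) ∧
      ∀ R : ℕ, Nat.card N = R * ∏ i ∈ I, Nat.card (alternatingGroup (Fin (d i))) →
        pPrimePart p R ^ p ≤ p ^ (∑ i ∈ I, d i) * (∏ i ∈ J, c i) ^ (2 * p) →
        pPrimePart p (Nat.card N) * ssDim k (G ⧸ N) ≤ ssDim k G := by
  classical
  have hp : p.Prime := hpf.out
  obtain ⟨n₁, h1⟩ := step_alt p
  obtain ⟨n₂, h2⟩ := Wnx.val1 hp
  refine ⟨max n₁ (max n₂ 5), fun k _ _ _ G _ _ N _ r H I J d c hS hIJ hI hJ => ?_⟩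
  have hd1 : ∀ i ∈ I, n₁ ≤ d i := fun i hi => (le_max_left _ _).trans (hI i hi).2.1
  have hd2 : ∀ i ∈ I, n₂ ≤ d i := fun i hi =>
    (le_max_left _ _).trans ((le_max_right _ _).trans (hI i hi).2.1)
  have hd3 : ∀ i ∈ I, 5 ≤ d i := fun i hi =>
    (le_max_right _ _).trans ((le_max_right _ _).trans (hI i hi).2.1)
  have hp1 : (1 : ℝ) ≤ p := by exact_mod_cast hp.one_lt.le
  let v : ℕ → ℝ := fun i => if i ∈ I then Wnx.aa p (d i) else (c i : ℝ) ^ 2
  have hex : ∀ i : ℕ, ∃ (S : Type) (_ : Group S), i ∈ I ∪ J →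
      (i < r ∧ IsSimpleGroup S ∧ (∃ f : H (i + 1) →* S, Function.Surjective f ∧
        f.ker = (H i).subgroupOf (H (i + 1))) ∧ 1 ≤ v i ∧ Step k S (v i)) := by
    intro i
    by_cases hi : i ∈ I
    · refine ⟨alternatingGroup (Fin (d i)), inferInstance, fun _ => ⟨(hI i hi).1, ?_, (hI i hi).2.2, ?_, ?_⟩⟩
      · exact alternatingGroup.isSimpleGroup (by
          rw [Nat.card_eq_fintype_card, Fintype.card_fin]; exact hd3 i hi)
      · simp only [v, if_pos hi]
        exact (h1 k (d i) (hd1 i hi)).1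
      · simp only [v, if_pos hi]
        exact (h1 k (d i) (hd1 i hi)).2
    · by_cases hj : i ∈ J
      · obtain ⟨hir, S, gS, f, hs, hf, hk, hB⟩ := hJ i hj
        have hb := step_big hB
        refine ⟨S, gS, fun _ => ⟨hir, hs, ⟨f, hf, hk⟩, ?_, ?_⟩⟩
        · simp only [v, if_neg hi]
          exact one_le_pow₀ (by exact_mod_cast hb.1)
        · simp only [v, if_neg hi]
          exact hb.2
      · refine ⟨PUnit, inferInstance, fun h => ?_⟩
        rcases Finset.mem_union.1 h with h | h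
        · exact absurd h hi
        · exact absurd h hj
  choose S gS hS2 using hex
  have hser : SerN N r H (I ∪ J) S :=
    ⟨hS.1, hS.2.1, hS.2.2, fun i hi => ⟨(hS2 i hi).1, (hS2 i hi).2.2.1⟩⟩
  have hL := series_gen k S v _ G N rfl r H (I ∪ J) hser (fun i hi => (hS2 i hi).2.1)
    (fun i hi => (hS2 i hi).2.2.2.1) (fun i hi => (hS2 i hi).2.2.2.2)
  have hprod : ∏ i ∈ I ∪ J, v i = (∏ i ∈ I, Wnx.aa p (d i)) * (∏ i ∈ J, (c i : ℝ)) ^ 2 := by
    rw [Finset.prod_union hIJ, ← Finset.prod_pow]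
    congr 1
    · exact Finset.prod_congr rfl fun i hi => if_pos hi
    · exact Finset.prod_congr rfl fun i hi => if_neg (Finset.disjoint_right.1 hIJ hi)
  rw [hprod] at hL
  refine ⟨hL, fun R hR hz => ?_⟩
  have hfac : ∀ i ∈ I, (pPrimePart p (Nat.card (alternatingGroup (Fin (d i)))) : ℝ) *
      exp ((d i : ℝ) * log p / p) ≤ Wnx.aa p (d i) := by
    intro i hi
    have : Nontrivial (Fin (d i)) := Fin.nontrivial_iff_two_le.2 (by have := hd3 i hi; omega)
    have h := two_mul_nat_card_alternatingGroup (α := Fin (d i))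
    rw [Nat.card_perm, Nat.card_fin] at h
    have h3 : pPrimePart p (Nat.card (alternatingGroup (Fin (d i)))) ≤
        pPrimePart p (d i).factorial := by
      rw [← h, pPrimePart_mul]
      exact Nat.le_mul_of_pos_left _ (pPrimePart_pos p two_ne_zero)
    have h4 := h2 (d i) (hd2 i hi)
    refine le_trans (mul_le_mul_of_nonneg_right ?_ (exp_pos _).le) h4
    exact_mod_cast h3
  set z := pPrimePart p R with hzdef
  have hzle : (z : ℝ) ≤ (∏ i ∈ I, exp ((d i : ℝ) * log p / p)) * (∏ i ∈ J, (c i : ℝ)) ^ 2 := by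
    have h3 : (z : ℝ) ^ p ≤ ((∏ i ∈ I, exp ((d i : ℝ) * log p / p)) *
        (∏ i ∈ J, (c i : ℝ)) ^ 2) ^ p := by
      have h4 : ((∏ i ∈ I, exp ((d i : ℝ) * log p / p)) ^ p : ℝ) =
          (p : ℝ) ^ (∑ i ∈ I, d i) := by
        rw [← Real.exp_sum, ← Real.exp_nat_mul]
        have hp0 : (p : ℝ) ≠ 0 := by exact_mod_cast hp.ne_zero
        have h5 : (p : ℝ) * (∑ i ∈ I, (d i : ℝ) * log p / p) =
            ((∑ i ∈ I, d i : ℕ) : ℝ) * log p := by
          push_cast
          rw [Finset.mul_sum, Finset.sum_mul]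
          refine Finset.sum_congr rfl fun i _ => ?_
          field_simp
        rw [h5, Real.exp_nat_mul, Real.exp_log (by exact_mod_cast hp.pos)]
      rw [mul_pow, h4, ← pow_mul]
      exact_mod_cast hz
    exact le_of_pow_le_pow_left₀ hp.ne_zero
      (mul_nonneg (Finset.prod_nonneg fun i _ => (exp_pos _).le) (by positivity)) h3
  have h6 : (pPrimePart p (Nat.card N) : ℝ) ≤ (∏ i ∈ I, Wnx.aa p (d i)) *
      (∏ i ∈ J, (c i : ℝ)) ^ 2 := by
    rw [hR, pPrimePart_mul, Wnx.pPrimePart_prod, ← hzdef]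
    push_cast
    calc (z : ℝ) * ∏ i ∈ I, (pPrimePart p (Nat.card (alternatingGroup (Fin (d i)))) : ℝ)
        ≤ ((∏ i ∈ I, exp ((d i : ℝ) * log p / p)) * (∏ i ∈ J, (c i : ℝ)) ^ 2) *
            ∏ i ∈ I, (pPrimePart p (Nat.card (alternatingGroup (Fin (d i)))) : ℝ) :=
          mul_le_mul_of_nonneg_right hzle (Finset.prod_nonneg fun i _ => Nat.cast_nonneg _)
      _ = (∏ i ∈ I, ((pPrimePart p (Nat.card (alternatingGroup (Fin (d i)))) : ℝ) *
            exp ((d i : ℝ) * log p / p))) * (∏ i ∈ J, (c i : ℝ)) ^ 2 := by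
          rw [Finset.prod_mul_distrib]
          ring
      _ ≤ _ := mul_le_mul_of_nonneg_right
          (Finset.prod_le_prod (fun i _ => mul_nonneg (Nat.cast_nonneg _) (exp_pos _).le) hfac)
          (by positivity)
  have h7 := (mul_le_mul_of_nonneg_right h6 (Nat.cast_nonneg (ssDim k (G ⧸ N)))).trans hL
  exact_mod_cast h7

end Pool.Agent.Wpp
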