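import Pool.Agent.Wil.Expl2
import Pool.Agent.Wpp.Fin

set_option autoImplicit false

/-! The final theorem with an explicit bound for the degrees of the alternating factors. -/

namespace Pool.Agent.Wpp

open Pool.Agent.Wil MonoidAlgebra Real

theorem five_le {p : ℕ} (hp : p.Prime) : 7 ≤ (401 * p ^ 5) ^ 2 := by
  have h1 : 1 ≤ p ^ 5 := Nat.one_le_pow _ _ hp.pos
  nlinarith

theorem one_step_expl (p : ℕ) [Fact p.Prime] (n : ℕ) (hn : (401 * p ^ 5) ^ 2 ≤ n) (r : ℕ)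
    (k : Type) [Field k] [CharP k p] (G : Type) [Group G] [Finite G]
    (N : Subgroup G) [N.Normal] (hN : Nonempty (N ≃* (Fin r → alternatingGroup (Fin n)))) :
    ((n.factorial : ℝ) * exp (-(n : ℝ) / (p : ℝ) ^ 3)) ^ r * (Wil.ssDim k (G ⧸ N) : ℝ) ≤
      (Wil.ssDim k G : ℝ) := by
  have hp : p.Prime := Fact.out
  obtain ⟨e⟩ := hN
  obtain ⟨m, f, hm, hrep, hf⟩ := main_rep_expl p n hn
  obtain ⟨W⟩ := exists_wrData N ((five_le hp).trans hn) e
  obtain ⟨d, hfd, hk⟩ := hrep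
  obtain ⟨ρ, hρ⟩ := hk k
  have h1 := wreath_bound W m hm ρ hρ
  have h2 : ((n.factorial : ℝ) * exp (-(n : ℝ) / (p : ℝ) ^ 3)) ^ r ≤ (((d ^ r) ^ 2 : ℕ) : ℝ) := by
    have h3 : (f : ℝ) ^ 2 ≤ (d : ℝ) ^ 2 := by
      have : (f : ℝ) ≤ d := by exact_mod_cast hfd
      exact pow_le_pow_left₀ (Nat.cast_nonneg f) this 2
    calc ((n.factorial : ℝ) * exp (-(n : ℝ) / (p : ℝ) ^ 3)) ^ r ≤ ((d : ℝ) ^ 2) ^ r := by
          apply pow_le_pow_left₀ (by positivity) (hf.trans h3)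
      _ = (((d ^ r) ^ 2 : ℕ) : ℝ) := by push_cast; rw [← pow_mul, ← pow_mul, mul_comm]
  calc ((n.factorial : ℝ) * exp (-(n : ℝ) / (p : ℝ) ^ 3)) ^ r * (Wil.ssDim k (G ⧸ N) : ℝ)
      ≤ (((d ^ r) ^ 2 : ℕ) : ℝ) * (Wil.ssDim k (G ⧸ N) : ℝ) := by
        apply mul_le_mul_of_nonneg_right h2 (Nat.cast_nonneg _)
    _ ≤ (Wil.ssDim k G : ℝ) := by exact_mod_cast h1

theorem val1_expl {p : ℕ} (hp : p.Prime) (N : ℕ) (hN : (401 * p ^ 5) ^ 2 ≤ N) :
    (pPrimePart p N.factorial : ℝ) * exp ((N : ℝ) * log p / p) ≤ Wnx.aa p N := by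
  have hp0 : (0 : ℝ) < p := by exact_mod_cast hp.pos
  have hp2 : (2 : ℝ) ≤ p := by exact_mod_cast hp.two_le
  have hl2 := Real.log_two_gt_d9
  have hl2' := Real.log_two_lt_d9
  have hlp : log 2 ≤ log p := Real.log_le_log (by norm_num) hp2
  have hlp' : log p ≤ p := (Real.log_le_sub_one_of_pos hp0).trans (by linarith)
  have hN0 : ((401 : ℝ) * p ^ 5) ^ 2 ≤ N := by exact_mod_cast hN
  have hN1 : 60 * (p : ℝ) ^ 4 ≤ N := by
    refine le_trans ?_ hN0
    have h1 : (1 : ℝ) ≤ (p : ℝ) ^ 6 := one_le_pow₀ (by linarith)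
    have h2 : (0 : ℝ) ≤ (p : ℝ) ^ 4 := by positivity
    calc 60 * (p : ℝ) ^ 4 ≤ 160801 * ((p : ℝ) ^ 4 * (p : ℝ) ^ 6) := by nlinarith
      _ = (401 * (p : ℝ) ^ 5) ^ 2 := by ring
  have hN' : (p : ℝ) ^ 3 * (log 2 + 3 * log p) / 0.07 ≤ N := by
    refine le_trans ?_ hN1
    rw [div_le_iff₀ (by norm_num)]
    have h3 : log 2 + 3 * log p ≤ 4.2 * p := by linarith
    have h4 : (0 : ℝ) ≤ (p : ℝ) ^ 3 := by positivity
    calc (p : ℝ) ^ 3 * (log 2 + 3 * log p) ≤ (p : ℝ) ^ 3 * (4.2 * p) := mul_le_mul_of_nonneg_left h3 h4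
      _ = 60 * (p : ℝ) ^ 4 * 0.07 := by ring
  have hv2 := Wnx.val_three hp N
  set v := N.factorial.factorization p with hv
  have hmain : log 2 + (N : ℝ) * log p / p + (2 * N : ℝ) / (p : ℝ) ^ 3 ≤ v * log p := by
    have h1 : ((N : ℝ) / p + (N : ℝ) / p ^ 2 + (N : ℝ) / p ^ 3 - 3) * log p ≤ v * log p :=
      mul_le_mul_of_nonneg_right hv2 (by linarith)
    have h2 : (N : ℝ) / (p : ℝ) ^ 3 * 2.07 ≤ (N : ℝ) / (p : ℝ) ^ 3 * (((p : ℝ) + 1) * log p) :=
      mul_le_mul_of_nonneg_left (Wnx.val_num hp) (by positivity)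
    have h3 : (N : ℝ) / (p : ℝ) ^ 3 * (((p : ℝ) + 1) * log p) =
        ((N : ℝ) / p + (N : ℝ) / p ^ 2 + (N : ℝ) / p ^ 3) * log p - (N : ℝ) * log p / p := by
      field_simp
      ring
    have h4 : log 2 + 3 * log p ≤ (N : ℝ) / (p : ℝ) ^ 3 * 0.07 := by
      rw [div_le_iff₀ (by norm_num)] at hN'
      rw [div_mul_eq_mul_div, le_div_iff₀ (by positivity)]
      linarith
    have h5 : (2 * N : ℝ) / (p : ℝ) ^ 3 = (N : ℝ) / (p : ℝ) ^ 3 * 2 := by ring
    rw [h5]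
    nlinarith
  have hpv : 2 * exp ((N : ℝ) * log p / p) * exp ((2 * N : ℝ) / (p : ℝ) ^ 3) ≤ (p : ℝ) ^ v := by
    have e1 : (p : ℝ) ^ v = exp (v * log p) := by
      rw [mul_comm, ← Real.rpow_def_of_pos hp0, Real.rpow_natCast]
    have e2 : 2 * exp ((N : ℝ) * log p / p) * exp ((2 * N : ℝ) / (p : ℝ) ^ 3) =
        exp (log 2 + (N : ℝ) * log p / p + (2 * N : ℝ) / (p : ℝ) ^ 3) := by
      rw [Real.exp_add, Real.exp_add, Real.exp_log (by norm_num)]
    rw [e1, e2]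
    exact Real.exp_le_exp.2 hmain
  have hdvd : p ^ v ∣ N.factorial := Nat.ordProj_dvd _ _
  have hval2 : (pPrimePart p N.factorial : ℝ) * exp ((N : ℝ) * log p / p) ≤
      (N.factorial : ℝ) / 2 * exp (-(2 * N : ℝ) / (p : ℝ) ^ 3) := by
    unfold pPrimePart
    rw [← hv, Nat.cast_div hdvd (by exact_mod_cast (pow_pos hp.pos v).ne')]
    push_cast
    rw [neg_div, Real.exp_neg]
    have hE := Real.exp_pos ((2 * N : ℝ) / (p : ℝ) ^ 3)
    have hF : (0 : ℝ) < N.factorial := by exact_mod_cast Nat.factorial_pos N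
    have hP : (0 : ℝ) < (p : ℝ) ^ v := by positivity
    rw [← div_eq_mul_inv, div_mul_eq_mul_div, div_div, div_le_div_iff₀ hP (by positivity)]
    calc (N.factorial : ℝ) * exp ((N : ℝ) * log p / p) * (2 * exp ((2 * N : ℝ) / (p : ℝ) ^ 3))
        = (N.factorial : ℝ) * (2 * exp ((N : ℝ) * log p / p) *
            exp ((2 * N : ℝ) / (p : ℝ) ^ 3)) := by ring
      _ ≤ (N.factorial : ℝ) * (p : ℝ) ^ v := mul_le_mul_of_nonneg_left hpv hF.le
  rw [Wnx.aa]
  refine hval2.trans ?_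
  apply mul_le_mul _ _ (exp_pos _).le (Nat.cast_nonneg _)
  · have : (0 : ℝ) ≤ N.factorial := Nat.cast_nonneg _
    linarith
  · apply Real.exp_le_exp.2
    rw [div_le_div_iff_of_pos_right (by positivity)]
    have : (0 : ℝ) ≤ N := Nat.cast_nonneg _
    linarith

theorem step_alt_expl {p : ℕ} [hpf : Fact p.Prime] {k : Type} [Field k] [CharP k p] (n : ℕ)
    (hn : (401 * p ^ 5) ^ 2 ≤ n) :
    1 ≤ Wnx.aa p n ∧ Step k (alternatingGroup (Fin n)) (Wnx.aa p n) := by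
  have hp : p.Prime := hpf.out
  refine ⟨le_trans ?_ (val1_expl hp n hn), fun m G _ _ M _ he => ?_⟩
  · have e1 : (1 : ℝ) ≤ (pPrimePart p n.factorial : ℝ) := by
      exact_mod_cast pPrimePart_pos p (Nat.factorial_ne_zero n)
    have e2 : (1 : ℝ) ≤ exp ((n : ℝ) * log p / p) := by
      apply Real.one_le_exp
      have : 0 ≤ log (p : ℝ) := Real.log_natCast_nonneg p
      positivity
    nlinarith
  · exact one_step_expl p n hn m k G M he

theorem main_expl (p : ℕ) [hpf : Fact p.Prime] (k : Type) [Field k] [CharP k p] [PerfectField k] (G : Type) [Group G]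
    [Finite G] (N : Subgroup G) [N.Normal] (r : ℕ) (H : ℕ → Subgroup G) (I J : Finset ℕ) (d c : ℕ → ℕ)
    (hS : IsSeries N r H) (hIJ : Disjoint I J)
    (hI : ∀ i ∈ I, i < r ∧ (401 * p ^ 5) ^ 2 ≤ d i ∧ AltFactor (H i) (H (i + 1)) (d i))
    (hJ : ∀ i ∈ J, i < r ∧ BigFactor p k (H i) (H (i + 1)) (c i)) :
    (∏ i ∈ I, ((d i).factorial : ℝ) * Real.exp (-(d i : ℝ) / (p : ℝ) ^ 3)) *
        (∏ i ∈ J, (c i : ℝ)) ^ 2 * (ssDim k (G ⧸ N) : ℝ) ≤ (ssDim k G : ℝ) ∧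
    ∀ R : ℕ, Nat.card N = R * ∏ i ∈ I, Nat.card (alternatingGroup (Fin (d i))) →
      pPrimePart p R ^ p ≤ p ^ (∑ i ∈ I, d i) * (∏ i ∈ J, c i) ^ (2 * p) →
      pPrimePart p (Nat.card N) * ssDim k (G ⧸ N) ≤ ssDim k G := by
  classical
  have hp : p.Prime := hpf.out
  have h1 := fun n hn => step_alt_expl (p := p) (k := k) n hn
  have h2 := fun n hn => val1_expl hp n hn
  have hd1 : ∀ i ∈ I, (401 * p ^ 5) ^ 2 ≤ d i := fun i hi => (hI i hi).2.1
  have hd2 : ∀ i ∈ I, (401 * p ^ 5) ^ 2 ≤ d i := hd1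
  have hd3 : ∀ i ∈ I, 5 ≤ d i := fun i hi => by have := (five_le hp).trans (hd1 i hi); omega
  have hp1 : (1 : ℝ) ≤ p := by exact_mod_cast hp.one_lt.le
  let v : ℕ → ℝ := fun i => if i ∈ I then Wnx.aa p (d i) else (c i : ℝ) ^ 2
  have hex : ∀ i : ℕ, ∃ (S : Type) (_ : Group S), i ∈ I ∪ J →
      (i < r ∧ IsSimpleGroup S ∧ (∃ f : H (i + 1) →* S, Function.Surjective f ∧
        f.ker = (H i).subgroupOf (H (i + 1))) ∧ 1 ≤ v i ∧ Step k S (v i)) := by
    intro i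
    by_cases hi : i ∈ I
    · refine ⟨alternatingGroup (Fin (d i)), inferInstance, fun _ => ⟨(hI i hi).1, ?_, (hI i hi).2.2, ?_, ?_⟩⟩
      · exact alternatingGroup.isSimpleGroup (by
          rw [Nat.card_eq_fintype_card, Fintype.card_fin]; exact hd3 i hi)
      · simp only [v, if_pos hi]
        exact (h1 (d i) (hd1 i hi)).1
      · simp only [v, if_pos hi]
        exact (h1 (d i) (hd1 i hi)).2
    · by_cases hj : i ∈ J
      · obtain ⟨hir, S, gS, f, hs, hf, hk, hB⟩ := hJ i hj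
        have hb := step_big hB
        refine ⟨S, gS, fun _ => ⟨hir, hs, ⟨f, hf, hk⟩, ?_, ?_⟩⟩
        · simp only [v, if_neg hi]
          exact one_le_pow₀ (by exact_mod_cast hb.1)
        · simp only [v, if_neg hi]
          exact hb.2
      · refine ⟨PUnit, inferInstance, fun h => ?_⟩
        rcases Finset.mem_union.1 h with h | h
        · exact absurd h hi
        · exact absurd h hj
  choose S gS hS2 using hex
  have hser : SerN N r H (I ∪ J) S :=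
    ⟨hS.1, hS.2.1, hS.2.2, fun i hi => ⟨(hS2 i hi).1, (hS2 i hi).2.2.1⟩⟩
  have hL := series_gen k S v _ G N rfl r H (I ∪ J) hser (fun i hi => (hS2 i hi).2.1)
    (fun i hi => (hS2 i hi).2.2.2.1) (fun i hi => (hS2 i hi).2.2.2.2)
  have hprod : ∏ i ∈ I ∪ J, v i = (∏ i ∈ I, Wnx.aa p (d i)) * (∏ i ∈ J, (c i : ℝ)) ^ 2 := by
    rw [Finset.prod_union hIJ, ← Finset.prod_pow]
    congr 1
    · exact Finset.prod_congr rfl fun i hi => if_pos hi
    · exact Finset.prod_congr rfl fun i hi => if_neg (Finset.disjoint_right.1 hIJ hi)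
  rw [hprod] at hL
  refine ⟨hL, fun R hR hz => ?_⟩
  have hfac : ∀ i ∈ I, (pPrimePart p (Nat.card (alternatingGroup (Fin (d i)))) : ℝ) *
      exp ((d i : ℝ) * log p / p) ≤ Wnx.aa p (d i) := by
    intro i hi
    have : Nontrivial (Fin (d i)) := Fin.nontrivial_iff_two_le.2 (by have := hd3 i hi; omega)
    have h := two_mul_nat_card_alternatingGroup (α := Fin (d i))
    rw [Nat.card_perm, Nat.card_fin] at h
    have h3 : pPrimePart p (Nat.card (alternatingGroup (Fin (d i)))) ≤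
        pPrimePart p (d i).factorial := by
      rw [← h, pPrimePart_mul]
      exact Nat.le_mul_of_pos_left _ (pPrimePart_pos p two_ne_zero)
    have h4 := h2 (d i) (hd2 i hi)
    refine le_trans (mul_le_mul_of_nonneg_right ?_ (exp_pos _).le) h4
    exact_mod_cast h3
  set z := pPrimePart p R with hzdef
  have hzle : (z : ℝ) ≤ (∏ i ∈ I, exp ((d i : ℝ) * log p / p)) * (∏ i ∈ J, (c i : ℝ)) ^ 2 := by
    have h3 : (z : ℝ) ^ p ≤ ((∏ i ∈ I, exp ((d i : ℝ) * log p / p)) *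
        (∏ i ∈ J, (c i : ℝ)) ^ 2) ^ p := by
      have h4 : ((∏ i ∈ I, exp ((d i : ℝ) * log p / p)) ^ p : ℝ) =
          (p : ℝ) ^ (∑ i ∈ I, d i) := by
        rw [← Real.exp_sum, ← Real.exp_nat_mul]
        have hp0 : (p : ℝ) ≠ 0 := by exact_mod_cast hp.ne_zero
        have h5 : (p : ℝ) * (∑ i ∈ I, (d i : ℝ) * log p / p) =
            ((∑ i ∈ I, d i : ℕ) : ℝ) * log p := by
          push_cast
          rw [Finset.mul_sum, Finset.sum_mul]
          refine Finset.sum_congr rfl fun i _ => ?_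
          field_simp
        rw [h5, Real.exp_nat_mul, Real.exp_log (by exact_mod_cast hp.pos)]
      rw [mul_pow, h4, ← pow_mul]
      exact_mod_cast hz
    exact le_of_pow_le_pow_left₀ hp.ne_zero
      (mul_nonneg (Finset.prod_nonneg fun i _ => (exp_pos _).le) (by positivity)) h3
  have h6 : (pPrimePart p (Nat.card N) : ℝ) ≤ (∏ i ∈ I, Wnx.aa p (d i)) *
      (∏ i ∈ J, (c i : ℝ)) ^ 2 := by
    rw [hR, pPrimePart_mul, Wnx.pPrimePart_prod, ← hzdef]
    push_cast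
    calc (z : ℝ) * ∏ i ∈ I, (pPrimePart p (Nat.card (alternatingGroup (Fin (d i)))) : ℝ)
        ≤ ((∏ i ∈ I, exp ((d i : ℝ) * log p / p)) * (∏ i ∈ J, (c i : ℝ)) ^ 2) *
            ∏ i ∈ I, (pPrimePart p (Nat.card (alternatingGroup (Fin (d i)))) : ℝ) :=
          mul_le_mul_of_nonneg_right hzle (Finset.prod_nonneg fun i _ => Nat.cast_nonneg _)
      _ = (∏ i ∈ I, ((pPrimePart p (Nat.card (alternatingGroup (Fin (d i)))) : ℝ) *
            exp ((d i : ℝ) * log p / p))) * (∏ i ∈ J, (c i : ℝ)) ^ 2 := by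
          rw [Finset.prod_mul_distrib]
          ring
      _ ≤ _ := mul_le_mul_of_nonneg_right
          (Finset.prod_le_prod (fun i _ => mul_nonneg (Nat.cast_nonneg _) (exp_pos _).le) hfac)
          (by positivity)
  have h7 := (mul_le_mul_of_nonneg_right h6 (Nat.cast_nonneg (ssDim k (G ⧸ N)))).trans hL
  exact_mod_cast h7

end Pool.Agent.Wpp
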